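import Pool.Agent.W2helper39.SB.Loc
import Pool.Agent.TH143.Fin

/-!
Entire curves whose homogeneous coordinates are sums of entire functions without zeros.
-/

set_option autoImplicit false

namespace Pool.Agent.W2helper39.SB

open Filter Topology Metric Pool.Agent.W603.BP

/-- the inversion -/
theorem pun_inv {u : ℂ → ℂ} (hu : Differentiable ℂ u) : Pun fun w => u w⁻¹ := by
  apply on_pun one_pos
  intro w hw
  exact (hu.analyticAt _).comp (g := u) (f := fun w : ℂ => w⁻¹) (analyticAt_inv hw.1)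

theorem zero_of_inv {u : ℂ → ℂ} (hu : Differentiable ℂ u)
    (h : ∀ᶠ w in 𝓝[≠] (0 : ℂ), u w⁻¹ = 0) : ∀ z, u z = 0 := by
  obtain ⟨δ, hδ, h1⟩ := ev_iff.mp h
  have hz0 : ‖((δ⁻¹ + 1 : ℝ) : ℂ)‖ = δ⁻¹ + 1 := by
    rw [Complex.norm_real, Real.norm_of_nonneg (by positivity)]
  have h2 : u =ᶠ[𝓝 ((δ⁻¹ + 1 : ℝ) : ℂ)] 0 := by
    have h3 : {z : ℂ | δ⁻¹ < ‖z‖} ∈ 𝓝 ((δ⁻¹ + 1 : ℝ) : ℂ) :=
      (isOpen_lt continuous_const continuous_norm).mem_nhds (by
        change δ⁻¹ < ‖((δ⁻¹ + 1 : ℝ) : ℂ)‖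
        rw [hz0]
        linarith)
    filter_upwards [h3] with z hz
    have hz' : δ⁻¹ < ‖z‖ := hz
    have h4 := h1 z⁻¹ (inv_mem_PB hδ hz')
    rwa [inv_inv] at h4
  intro z
  exact (hu.differentiableOn.analyticOnNhd isOpen_univ).eqOn_zero_of_preconnected_of_eventuallyEq_zero
    isPreconnected_univ (Set.mem_univ _) h2 (Set.mem_univ z)

/-- proportional functions without zeros -/
theorem const_mult {u v : ℂ → ℂ} (hu : Differentiable ℂ u) (hv : Differentiable ℂ v)
    (hu0 : ∀ z, u z ≠ 0) (hv0 : ∀ z, v z ≠ 0)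
    (h : MRel (fun w => u w⁻¹) (fun w => v w⁻¹)) : ∃ a : ℂ, ∀ z, u z = a * v z := by
  obtain ⟨C, K, h1⟩ := h.gr
  obtain ⟨δ, hδ, h2⟩ := ev_iff.mp h1
  have hd : Differentiable ℂ (fun z => u z / v z) := hu.div hv hv0
  obtain ⟨M, hM⟩ := (isCompact_closedBall (0 : ℂ) δ⁻¹).exists_bound_of_continuousOn
    hd.continuous.continuousOn
  obtain ⟨p, hp⟩ := Pool.Agent.TH143.poly_of_growth _ hd (|C| + |M|) K (by
    intro z
    have h3 : 1 ≤ (1 + ‖z‖) ^ K := one_le_pow₀ (by linarith [norm_nonneg z])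
    rcases le_or_gt ‖z‖ δ⁻¹ with h4 | h4
    · have h5 := hM z (by rw [mem_closedBall, dist_zero_right]; exact h4)
      calc ‖u z / v z‖ ≤ |M| := h5.trans (le_abs_self _)
        _ ≤ (|C| + |M|) * 1 := by rw [mul_one]; linarith [abs_nonneg C]
        _ ≤ _ := by gcongr
    · have h5 := h2 z⁻¹ (inv_mem_PB hδ h4)
      simp only [inv_inv, norm_inv, inv_pow] at h5
      have hz : 0 < ‖z‖ := (inv_pos.mpr hδ).trans h4
      have hv' : 0 < ‖v z‖ := norm_pos_iff.mpr (hv0 z)
      rw [norm_div, div_le_iff₀ hv']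
      have h6 : ‖u z‖ ≤ C * ‖v z‖ * ‖z‖ ^ K := by
        rwa [← div_eq_mul_inv, div_le_iff₀ (by positivity)] at h5
      refine h6.trans ?_
      calc C * ‖v z‖ * ‖z‖ ^ K ≤ (|C| + |M|) * ‖v z‖ * (1 + ‖z‖) ^ K := by
            gcongr
            · linarith [le_abs_self C, abs_nonneg M]
            · linarith
        _ = _ := by ring)
  have hp0 : ∀ z, p.eval z ≠ 0 := fun z => by
    rw [← hp z]
    exact div_ne_zero (hu0 z) (hv0 z)
  have hdeg : p.degree = 0 := by
    by_contra hne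
    obtain ⟨z, hz⟩ := IsAlgClosed.exists_root p hne
    exact hp0 z hz
  obtain ⟨a, ha⟩ : ∃ a, p = Polynomial.C a := ⟨_, Polynomial.eq_C_of_degree_eq_zero hdeg⟩
  refine ⟨a, fun z => ?_⟩
  have h3 := hp z
  rw [ha, Polynomial.eval_C, div_eq_iff (hv0 z)] at h3
  exact h3

/-- the quotients of the coordinates of an extendable curve -/
theorem mrel_of_extends {n : ℕ} {f : ℂ → Fin (n + 1) → ℂ} (h : Extends f) (j k : Fin (n + 1))
    (hk : Nz fun w => f w k) : MRel (fun w => f w j) (fun w => f w k) := by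
  obtain ⟨g, hg, hg0, hfg⟩ := h
  have h0 : (0 : ℂ) ∈ ball (0 : ℂ) 1 := mem_ball_self one_pos
  have hga : ∀ i, MeromorphicAt (fun w => g w i) 0 := by
    intro i
    have h1 : DifferentiableOn ℂ (fun w => g w i) (ball 0 1) := fun z hz =>
      (differentiableWithinAt_pi.mp (hg z hz)) i
    exact (h1.analyticAt (isOpen_ball.mem_nhds h0)).meromorphicAt
  have hfg' : ∀ᶠ w in 𝓝[≠] (0 : ℂ), ∃ c : ℂ, f w = c • g w := by
    filter_upwards [PB_mem one_pos] with w hw
    exact hfg w (mem_disc.mpr hw)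
  have hgn : Nz fun w => g w k := by
    intro h1
    apply hk
    filter_upwards [h1, hfg'] with w h2 h3
    obtain ⟨c, hc⟩ := h3
    rw [hc, Pi.smul_apply, h2, smul_zero]
  refine ⟨fun w => g w j / g w k, (hga j).fun_div (hga k), ?_⟩
  filter_upwards [hfg', mero_ne (hga k) hgn] with w h2 h3
  obtain ⟨c, hc⟩ := h2
  rw [hc, Pi.smul_apply, Pi.smul_apply, smul_eq_mul, smul_eq_mul]
  field_simp

/-- Entire curves whose homogeneous coordinates are sums of functions without zeros are constant if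
they extend to infinity. -/
theorem entire_const {n m : ℕ} (f : ℂ → Fin (n + 1) → ℂ)
    (hf : ∀ c, Differentiable ℂ fun z => f z c)
    (t : Fin (n + 1) → Fin m → ℂ → ℂ) (ht : ∀ c j, Differentiable ℂ (t c j))
    (ht0 : ∀ c j, (∀ z, t c j z = 0) ∨ ∀ z, t c j z ≠ 0)
    (hft : ∀ z c, f z c = ∑ j, t c j z) (hext : Extends fun w => f w⁻¹) (c1 c0 : Fin (n + 1))
    (h0 : ∃ z, f z c0 ≠ 0) : ∃ a : ℂ, ∀ z, f z c1 = a * f z c0 := by
  classical
  have hn0 : Nz fun w => f w⁻¹ c0 := by
    intro h1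
    obtain ⟨z, hz⟩ := h0
    exact hz (zero_of_inv (hf c0) h1 z)
  obtain ⟨ρ, hρ, hρe⟩ := mrel_of_extends hext c1 c0 hn0
  -- the units
  let c : Fin m ⊕ Fin m → Fin (n + 1) := Sum.elim (fun _ => c1) (fun _ => c0)
  let i : Fin m ⊕ Fin m → Fin m := Sum.elim id id
  let T : Fin m ⊕ Fin m → ℂ → ℂ := fun p => t (c p) (i p)
  let v : Fin m ⊕ Fin m → ℂ → ℂ := fun p => if ∀ z, T p z = 0 then fun _ => 1 else T p
  have hv : ∀ p, Differentiable ℂ (v p) ∧ ∀ z, v p z ≠ 0 := by
    intro p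
    by_cases h : ∀ z, T p z = 0
    · have h1 : v p = fun _ => 1 := if_pos h
      rw [h1]
      exact ⟨differentiable_const _, fun _ => one_ne_zero⟩
    · have h1 : v p = T p := if_neg h
      rw [h1]
      exact ⟨ht _ _, (ht0 _ _).resolve_left h⟩
  let e : Fin m ⊕ Fin m → ℂ → ℂ := fun p w => v p w⁻¹
  have heU : ∀ p, Un (e p) := fun p => ⟨pun_inv (hv p).1, Eventually.of_forall fun w => (hv p).2 _⟩
  have hgs : ∀ p q, Gr (e p) (e q) → Gr (e q) (e p) := fun p q hg =>
    (MRel.symm (growth_mero (heU p).1 (heU q).1 (heU q).nz hg) (heU p).nz).gr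
  let col : Fin m ⊕ Fin m → Set (Fin m ⊕ Fin m) := fun p => {q | Gr (e p) (e q)}
  have hcol : ∀ p q, Nz (e p) → Nz (e q) → Gr (e p) (e q) → col p = col q := by
    intro p q _ _ hg
    ext r
    exact ⟨fun h => (hgs p q hg).trans h, fun h => hg.trans h⟩
  have hcol' : ∀ p q, col p = col q → Gr (e p) (e q) := by
    intro p q hpq
    have h1 : q ∈ col q := Gr.refl _
    rw [← hpq] at h1
    exact h1
  let ε : Fin m ⊕ Fin m → ℂ := fun p => if ∀ z, T p z = 0 then 0 else 1
  have hε : ∀ p z, T p z = ε p * v p z := by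
    intro p z
    by_cases h : ∀ z, T p z = 0
    · have h1 : ε p = 0 := if_pos h
      rw [h1, zero_mul, h]
    · have h1 : ε p = 1 := if_neg h
      have h2 : v p = T p := if_neg h
      rw [h1, h2, one_mul]
  let σ : Fin m ⊕ Fin m → ℂ → ℂ := Sum.elim (fun j _ => ε (Sum.inl j))
    (fun j w => -ρ w * ε (Sum.inr j))
  have hσ : ∀ p, MeromorphicAt (σ p) 0 := by
    rintro (j | j)
    · exact MeromorphicAt.const _ _
    · exact hρ.fun_neg.fun_mul (MeromorphicAt.const _ _)
  have hcs := color_sums (N := ((Finset.univ : Finset (Fin m ⊕ Fin m)).card - 1) ^ 2 + 1)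
    (Nat.succ_pos _) e (fun p => (heU p).1)
    (fun p => root (heU p).1 (heU p).2 (Nat.succ_pos _)) col hcol Finset.univ (Nat.le_succ _) σ hσ
    (by
      filter_upwards [hρe] with w hw
      rw [Fintype.sum_sum_type]
      have h1 : ∑ j, σ (Sum.inl j) w * e (Sum.inl j) w = f w⁻¹ c1 := by
        rw [hft]
        refine Finset.sum_congr rfl fun j _ => ?_
        exact (hε (Sum.inl j) w⁻¹).symm
      have h2 : ∑ j, σ (Sum.inr j) w * e (Sum.inr j) w = -ρ w * f w⁻¹ c0 := by
        rw [hft, Finset.mul_sum]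
        refine Finset.sum_congr rfl fun j _ => ?_
        have h3 : t c0 j w⁻¹ = ε (Sum.inr j) * v (Sum.inr j) w⁻¹ := hε (Sum.inr j) w⁻¹
        rw [h3]
        simp only [σ, e, Sum.elim_inr]
        ring
      rw [h1, h2, hw]
      ring)
  -- a class whose contribution to the coordinate `c0` does not vanish
  obtain ⟨κ, -, hκ⟩ := exists_nz_term (Finset.univ.image col)
    (t := fun κ w => ∑ p ∈ Finset.univ.filter (fun p => col p = κ),
      (if p.isRight then ε p * e p w else 0)) (by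
      intro h1
      apply hn0
      filter_upwards [h1] with w hw
      rw [hft, ← hw]
      rw [Finset.sum_fiberwise_of_maps_to (fun p _ => Finset.mem_image_of_mem col (Finset.mem_univ p)),
        Fintype.sum_sum_type]
      simp only [Sum.isRight_inl, Sum.isRight_inr, if_true, Bool.false_eq_true, if_false,
        Finset.sum_const_zero, zero_add]
      exact Finset.sum_congr rfl fun j _ => hε (Sum.inr j) w⁻¹)
  obtain ⟨p0, hp0, -⟩ := exists_nz_term _ hκ
  have hp0κ : col p0 = κ := (Finset.mem_filter.mp hp0).2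
  have hmult : ∀ p, ∃ a : ℂ, col p = κ → ∀ z, v p z = a * v p0 z := by
    intro p
    by_cases h : col p = κ
    · obtain ⟨a, ha⟩ := const_mult (hv p).1 (hv p0).1 (hv p).2 (hv p0).2
        (growth_mero (heU p).1 (heU p0).1 (heU p0).nz (hcol' p p0 (h.trans hp0κ.symm)))
      exact ⟨a, fun _ => ha⟩
    · exact ⟨0, fun h' => absurd h' h⟩
  choose a ha using hmult
  let b0 : ℂ := ∑ p ∈ Finset.univ.filter (fun p => col p = κ), (if p.isRight then ε p * a p else 0)
  let b1 : ℂ := ∑ p ∈ Finset.univ.filter (fun p => col p = κ), (if p.isRight then 0 else ε p * a p)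
  have hb0 : b0 ≠ 0 := by
    intro h1
    apply hκ
    refine Eventually.of_forall fun w => ?_
    have h2 : ∑ p ∈ Finset.univ.filter (fun p => col p = κ),
        (if p.isRight then ε p * e p w else 0) = b0 * e p0 w := by
      rw [Finset.sum_mul]
      refine Finset.sum_congr rfl fun p hp => ?_
      have h3 : e p w = a p * e p0 w := ha p (Finset.mem_filter.mp hp).2 w⁻¹
      by_cases h4 : p.isRight
      · rw [if_pos h4, if_pos h4, h3]
        ring
      · rw [if_neg h4, if_neg h4, zero_mul]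
    exact h2.trans (by rw [h1, zero_mul])
  have hρc : ∀ᶠ w in 𝓝[≠] (0 : ℂ), ρ w = b1 / b0 := by
    filter_upwards [hcs κ] with w hw
    have h2 : ∑ p ∈ Finset.univ.filter (fun p => col p = κ), σ p w * e p w =
        (b1 - ρ w * b0) * e p0 w := by
      rw [sub_mul, mul_assoc, Finset.sum_mul, Finset.sum_mul, Finset.mul_sum,
        ← Finset.sum_sub_distrib]
      refine Finset.sum_congr rfl fun p hp => ?_
      have h3 : e p w = a p * e p0 w := ha p (Finset.mem_filter.mp hp).2 w⁻¹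
      rcases p with j | j
      · simp only [Sum.isRight_inl, Bool.false_eq_true, if_false, zero_mul, mul_zero, sub_zero, σ,
          Sum.elim_inl]
        rw [h3]
        ring
      · simp only [Sum.isRight_inr, if_true, zero_mul, zero_sub, σ, Sum.elim_inr]
        rw [h3]
        ring
    rw [h2] at hw
    have h4 := (mul_eq_zero.mp hw).resolve_right ((hv p0).2 _)
    rw [eq_div_iff hb0]
    linear_combination -h4
  refine ⟨b1 / b0, fun z => ?_⟩
  have h1 := zero_of_inv (u := fun z => f z c1 - b1 / b0 * f z c0)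
    ((hf c1).sub ((hf c0).const_mul _)) (by
      filter_upwards [hρe, hρc] with w h2 h3
      rw [h2, h3, sub_self]) z
  exact sub_eq_zero.mp h1

end Pool.Agent.W2helper39.SB
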