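import Pool.Agent.Results.MP_70ba79_ag.SparseCurves
import Pool.Agent.Q72.NA.Gm

/-!
Maps of the multiplicative group with few terms lie in the exceptional hypersurface.
-/

set_option autoImplicit false

namespace Pool.Agent.W2helper39.SB

open FF MvPolynomial Pool.Agent.W603.LV Pool.Agent.Q72.NA Pool.Agent.W603.PV
open Pool.Agent.Results.MP_70ba79_ag.SparseCurves
open scoped IntermediateField

/-- the substitution of a power -/
theorem exists_pow (m : ℕ) (hm : 0 < m) : ∃ σ : RatFunc ℂ →ₐ[ℂ] RatFunc ℂ,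
    σ RatFunc.X = RatFunc.X ^ m ∧ ∀ f, Transcendental ℂ f → (m : ℤ) ≤ hgt ℂ (σ f) := by
  obtain ⟨Y, hY⟩ : ∃ Y : RatFunc ℂ, Y = RatFunc.X ^ m := ⟨_, rfl⟩
  have hX0 : (RatFunc.X : RatFunc ℂ) ≠ 0 := RatFunc.X_ne_zero
  have hYtr : Transcendental ℂ Y := by
    rw [hY]
    exact RatFunc.transcendental_X.pow hm
  obtain ⟨e2, he2⟩ : ∃ e2 : RatFunc ℂ ≃ₐ[ℂ] ℂ⟮Y⟯, ((e2 RatFunc.X : ℂ⟮Y⟯) : RatFunc ℂ) = Y :=
    ⟨RatFunc.algEquivOfTranscendental Y hYtr, by simp⟩
  let σ : RatFunc ℂ →ₐ[ℂ] RatFunc ℂ := ℂ⟮Y⟯.val.comp (e2 : RatFunc ℂ →ₐ[ℂ] ℂ⟮Y⟯)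
  have hσ : ∀ x, σ x = ((e2 x : ℂ⟮Y⟯) : RatFunc ℂ) := fun x => rfl
  have hσm : ∀ x, σ x ∈ ℂ⟮Y⟯ := fun x => by
    rw [hσ]
    exact Subtype.property _
  refine ⟨σ, by rw [hσ, he2, hY], fun f hf => ?_⟩
  have hσf : Transcendental ℂ (σ f) := by
    intro halg
    exact hf ((isAlgebraic_algHom_iff σ σ.injective).1 halg)
  have hle : ℂ⟮σ f⟯ ≤ ℂ⟮Y⟯ := by
    rw [IntermediateField.adjoin_le_iff, Set.singleton_subset_iff]
    exact hσm f
  have : FiniteDimensional ℂ⟮σ f⟯ (RatFunc ℂ) := IsFF.finite hσf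
  have h1 := IntermediateField.finrank_le_of_le_left hle
  have h2 := hgt_eq_finrank (k := ℂ) hσf
  have h3 := hgt_eq_finrank (k := ℂ) hYtr
  have h4 : hgt ℂ Y = m * hgt ℂ (RatFunc.X : RatFunc ℂ) := by
    rw [hY, hgt_pow hX0]
  have h5 := hgt_eq_finrank (k := ℂ) (RatFunc.transcendental_X (K := ℂ))
  have : FiniteDimensional ℂ⟮(RatFunc.X : RatFunc ℂ)⟯ (RatFunc ℂ) :=
    IsFF.finite RatFunc.transcendental_X
  have h6 : 0 < Module.finrank ℂ⟮(RatFunc.X : RatFunc ℂ)⟯ (RatFunc ℂ) := Module.finrank_pos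
  have h7 : (m : ℤ) ≤ m * hgt ℂ (RatFunc.X : RatFunc ℂ) := by
    rw [h5]
    have h8 : (1 : ℤ) ≤ Module.finrank ℂ⟮(RatFunc.X : RatFunc ℂ)⟯ (RatFunc ℂ) := by
      exact_mod_cast h6
    nlinarith [Int.natCast_nonneg m]
  rw [h2]
  rw [← h4, h3] at h7
  refine h7.trans ?_
  exact_mod_cast h1

/-- the value of a polynomial at a place -/
theorem ge_poly {L : Type} [Field L] [Algebra ℂ L] {P : Place ℂ L} {y : L} {c : ℂ}
    (h0 : Ge P 0 y) (h : Ge P 1 (y - algebraMap ℂ L c)) (p : Polynomial ℂ) :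
    Ge P 1 (Polynomial.aeval y p - algebraMap ℂ L (p.eval c)) := by
  induction p using Polynomial.induction_on with
  | C a => rw [Polynomial.aeval_C, Polynomial.eval_C, sub_self]; exact Ge.zero
  | add p q hp hq =>
    rw [map_add, Polynomial.eval_add, map_add, add_sub_add_comm]
    exact hp.add hq
  | monomial n a ih =>
    have e : Polynomial.aeval y (Polynomial.C a * Polynomial.X ^ (n + 1)) -
        algebraMap ℂ L ((Polynomial.C a * Polynomial.X ^ (n + 1)).eval c) =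
        (Polynomial.aeval y (Polynomial.C a * Polynomial.X ^ n) -
          algebraMap ℂ L ((Polynomial.C a * Polynomial.X ^ n).eval c)) * y +
        algebraMap ℂ L ((Polynomial.C a * Polynomial.X ^ n).eval c) * (y - algebraMap ℂ L c) := by
      simp only [map_mul, map_pow, Polynomial.aeval_C, Polynomial.aeval_X, Polynomial.eval_mul,
        Polynomial.eval_C, Polynomial.eval_pow, Polynomial.eval_X]
      ring
    rw [e]
    refine Ge.add ?_ ?_
    · have h1 := ih.mul h0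
      rwa [add_zero] at h1
    · have h1 := (Ge.const (P := P) ((Polynomial.C a * Polynomial.X ^ n).eval c)).mul h
      rwa [zero_add] at h1

/-- the height of a quotient of coordinates -/
theorem hgt_le_height {k L : Type} [Field k] [IsAlgClosed k] [CharZero k] [Field L] [Algebra k L]
    [IsFF k L] {n : ℕ} (x : Fin n → L) (c1 c0 : Fin n) (h1 : x c1 ≠ 0) (h0 : x c0 ≠ 0) :
    hgt k (x c1 / x c0) ≤ height k x := by
  classical
  have hx : ∃ c, x c ≠ 0 := ⟨c1, h1⟩
  have hf2 := Pool.Agent.Y731.FG.minOrd_finite (k := k) hx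
  have hf3 := finite_support (k := k) (x c1)
  have hf4 := finite_support (k := k) (x c0)
  set T := hf2.toFinset ∪ hf3.toFinset ∪ hf4.toFinset with hT
  have hT1 : ∀ P : Place k L, Pool.Agent.Y731.FG.minOrd P x ≠ 0 → P ∈ T := by
    intro P hP
    simp only [hT, Finset.mem_union, Set.Finite.mem_toFinset]
    exact Or.inl (Or.inl hP)
  have hT2 : ∀ P : Place k L, P.ord (x c1) ≠ 0 → P ∈ T := by
    intro P hP
    simp only [hT, Finset.mem_union, Set.Finite.mem_toFinset]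
    exact Or.inl (Or.inr hP)
  have hT3 : ∀ P : Place k L, P.ord (x c0) ≠ 0 → P ∈ T := by
    intro P hP
    simp only [hT, Finset.mem_union, Set.Finite.mem_toFinset]
    exact Or.inr hP
  have hT4 : ∀ P : Place k L, P.ord (x c1 / x c0) ≠ 0 → P ∈ T := by
    intro P hP
    by_contra hcon
    apply hP
    rw [P.ord_div h1 h0]
    have e1 : P.ord (x c1) = 0 := by
      by_contra h
      exact hcon (hT2 P h)
    have e0 : P.ord (x c0) = 0 := by
      by_contra h
      exact hcon (hT3 P h)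
    rw [e1, e0, sub_self]
  have hH : height k x = -∑ P ∈ T, Pool.Agent.Y731.FG.minOrd P x :=
    Pool.Agent.Y731.FG.hgtP_finset hx T hT1
  rw [hgt_finset _ T hT4, hH]
  have hs := sum_ord_finset (x c0) T hT3
  have h5 : -∑ P ∈ T, Pool.Agent.Y731.FG.minOrd P x =
      ∑ P ∈ T, (P.ord (x c0) - Pool.Agent.Y731.FG.minOrd P x) := by
    rw [Finset.sum_sub_distrib, hs, zero_sub]
  rw [h5]
  refine Finset.sum_le_sum fun P _ => ?_
  rw [P.ord_div h1 h0]
  have e1 := Pool.Agent.Y731.FG.minOrd_le P h1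
  have e0 := Pool.Agent.Y731.FG.minOrd_le P h0
  omega

/-- **Maps of the multiplicative group with few terms.** -/
theorem eng {n g q w m : ℕ} {G : Fin g → MvPolynomial (Fin n) ℂ}
    {E : Fin q → Fin w → MvPolynomial (Fin n) ℂ} {d : Fin q → Fin w → ℕ}
    (Φ : MvPolynomial (Fin n) ℂ) (B : ℝ)
    (hΦ : ∀ (L : Type) [Field L] [Algebra ℂ L] [IsFF ℂ L] (S : Finset (Place ℂ L))
        (x : Fin n → L) (t : Fin n → Fin m → L), OnX G x →
        NonConstant ℂ x → (∀ i, ∃ j, aeval x (E i j) ≠ 0) →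
        (∀ P : Place ℂ L, P ∉ S → ∀ i, localHeight (E i) (d i) P x ≤ 0) → aeval x Φ ≠ 0 →
        (∀ c, x c = ∑ j, t c j) → (∀ P ∈ unequal ℂ t, P ∈ S) →
          (height ℂ x : ℝ) ≤ B * ((canDeg ℂ L + S.card) + 2))
    (W : Fin n → Polynomial ℂ) (a : Fin n → Fin m → ℂ) (b : Fin n → Fin m → ℕ)
    (hW : ∀ c, W c = ∑ j, Polynomial.C (a c j) * Polynomial.X ^ b c j)
    (hG : ∀ j, aeval W (G j) = 0)
    (hav : ∀ i, ∀ τ : ℂ, τ ≠ 0 → ∃ j, (aeval W (E i j)).eval τ ≠ 0)
    (hne : ∀ τ : ℂ, τ ≠ 0 → ∃ c, (W c).eval τ ≠ 0)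
    (c1 c0 : Fin n)
    (hnc : W c1 * Polynomial.C ((W c0).eval 1) ≠ W c0 * Polynomial.C ((W c1).eval 1)) :
    aeval W Φ = 0 := by
  classical
  by_contra hWΦ
  obtain ⟨M, hM⟩ := exists_nat_gt (B * ((canDeg ℂ (RatFunc ℂ) + (zeroInf).card) + 2))
  obtain ⟨σ, hσX, hσh⟩ := exists_pow (M + 1) (Nat.succ_pos M)
  set Y : RatFunc ℂ := RatFunc.X ^ (M + 1) with hY
  have hX0 : (RatFunc.X : RatFunc ℂ) ≠ 0 := RatFunc.X_ne_zero
  have hY0 : Y ≠ 0 := pow_ne_zero _ hX0
  have hψ : ∀ p : Polynomial ℂ, σ (algebraMap (Polynomial ℂ) (RatFunc ℂ) p) =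
      Polynomial.aeval Y p := by
    intro p
    have h1 : (σ.comp (Algebra.algHom ℂ (Polynomial ℂ) (RatFunc ℂ))) =
        (Polynomial.aeval Y : Polynomial ℂ →ₐ[ℂ] RatFunc ℂ) := by
      apply Polynomial.algHom_ext
      rw [AlgHom.comp_apply, Polynomial.aeval_X]
      change σ (algebraMap (Polynomial ℂ) (RatFunc ℂ) Polynomial.X) = Y
      rw [RatFunc.algebraMap_X, hσX]
    exact congrArg (fun φ : Polynomial ℂ →ₐ[ℂ] RatFunc ℂ => φ p) h1
  have hinj : ∀ p : Polynomial ℂ, Polynomial.aeval Y p = 0 → p = 0 := by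
    intro p hp
    rw [← hψ] at hp
    have h1 := (map_eq_zero_iff σ σ.injective).1 hp
    exact (map_eq_zero_iff _ (IsFractionRing.injective (Polynomial ℂ) (RatFunc ℂ))).1 h1
  let x : Fin n → RatFunc ℂ := fun c => Polynomial.aeval Y (W c)
  have hxp : ∀ F : MvPolynomial (Fin n) ℂ, aeval x F = Polynomial.aeval Y (aeval W F) := by
    intro F
    exact (MvPolynomial.comp_aeval_apply (f := W)
      (Polynomial.aeval Y : Polynomial ℂ →ₐ[ℂ] RatFunc ℂ) F).symm
  let t : Fin n → Fin m → RatFunc ℂ := fun c j => algebraMap ℂ (RatFunc ℂ) (a c j) * Y ^ b c j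
  -- the places outside zero and infinity
  have hpl : ∀ P : Place ℂ (RatFunc ℂ), P ∉ zeroInf → P.ord Y = 0 ∧
      ∃ c : ℂ, c ≠ 0 ∧ Ge P 1 (Y - algebraMap ℂ (RatFunc ℂ) c) := by
    intro P hP
    have h1 : P.ord Y = 0 := by rw [hY, P.ord_pow, not_mem_zeroInf hP, mul_zero]
    refine ⟨h1, ?_⟩
    obtain ⟨c, hc⟩ := exists_const P (f := Y) (Or.inr h1.ge)
    refine ⟨c, ?_, hc⟩
    rintro rfl
    rw [map_zero, sub_zero] at hc
    rcases hc with h2 | h2
    · exact hY0 h2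
    · omega
  have hval : ∀ (P : Place ℂ (RatFunc ℂ)) (c : ℂ), P.ord Y = 0 →
      Ge P 1 (Y - algebraMap ℂ (RatFunc ℂ) c) → ∀ p : Polynomial ℂ, p.eval c ≠ 0 →
        Polynomial.aeval Y p ≠ 0 ∧ P.ord (Polynomial.aeval Y p) = 0 := by
    intro P c h1 h2 p hp
    have h3 := ge_poly (Or.inr h1.ge) h2 p
    have h4 : Polynomial.aeval Y p ≠ 0 := by
      intro h0
      apply hp
      apply const_zero P
      rw [h0, zero_sub] at h3
      have := h3.neg
      rwa [neg_neg] at this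
    refine ⟨h4, ?_⟩
    have h5 : Ge P 0 (Polynomial.aeval Y p) := Pool.Agent.TH143.LG.ge_aeval (Or.inr h1.ge) p
    have h6 := h5.resolve_left h4
    by_contra h7
    apply hp
    apply const_zero P
    have h8 : Ge P 1 (Polynomial.aeval Y p) := Or.inr (by omega)
    have h9 := h8.sub h3
    rwa [sub_sub_cancel] at h9
  -- the point is not constant
  have hW1 : W c1 ≠ 0 := by
    intro h0
    apply hnc
    rw [h0]
    simp
  have hW0 : W c0 ≠ 0 := by
    intro h0
    apply hnc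
    rw [h0]
    simp
  have hprop : ∀ z1 z0 : ℂ, (z1 ≠ 0 ∨ z0 ≠ 0) →
      W c1 * Polynomial.C z0 = W c0 * Polynomial.C z1 → False := by
    intro z1 z0 hz h1
    apply hnc
    have h2 := congrArg (Polynomial.eval 1) h1
    simp only [Polynomial.eval_mul, Polynomial.eval_C] at h2
    rcases hz with hz | hz
    · have h3 : Polynomial.C z1 ≠ 0 := by simpa using hz
      apply mul_right_cancel₀ h3
      have h4 : Polynomial.C ((W c1).eval 1) * Polynomial.C z0 =
          Polynomial.C ((W c0).eval 1) * Polynomial.C z1 := by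
        rw [← Polynomial.C_mul, ← Polynomial.C_mul, h2]
      linear_combination Polynomial.C ((W c1).eval 1) * h1 - W c1 * h4
    · have h3 : Polynomial.C z0 ≠ 0 := by simpa using hz
      apply mul_right_cancel₀ h3
      have h4 : Polynomial.C ((W c1).eval 1) * Polynomial.C z0 =
          Polynomial.C ((W c0).eval 1) * Polynomial.C z1 := by
        rw [← Polynomial.C_mul, ← Polynomial.C_mul, h2]
      linear_combination Polynomial.C ((W c0).eval 1) * h1 - W c0 * h4
  have hx1 : x c1 ≠ 0 := fun h0 => hW1 (hinj _ h0)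
  have hx0 : x c0 ≠ 0 := fun h0 => hW0 (hinj _ h0)
  have hconst : NonConstant ℂ x := by
    rintro ⟨z, a', hz⟩
    have ha' : a' ≠ 0 := by
      rintro rfl
      exact hx1 (by rw [hz, mul_zero])
    refine hprop (z c1) (z c0) (Or.inl ?_) ?_
    · intro h0
      exact hx1 (by rw [hz, h0, map_zero, zero_mul])
    · have h1 : Polynomial.aeval Y (W c1 * Polynomial.C (z c0) - W c0 * Polynomial.C (z c1)) =
          0 := by
        rw [map_sub, map_mul, map_mul, Polynomial.aeval_C, Polynomial.aeval_C]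
        have e1 : Polynomial.aeval Y (W c1) = algebraMap ℂ (RatFunc ℂ) (z c1) * a' := hz c1
        have e0 : Polynomial.aeval Y (W c0) = algebraMap ℂ (RatFunc ℂ) (z c0) * a' := hz c0
        rw [e1, e0]
        ring
      exact sub_eq_zero.mp (hinj _ h1)
  have hht : height ℂ x ≤ B * ((canDeg ℂ (RatFunc ℂ) + (zeroInf).card) + 2) := by
    refine hΦ (RatFunc ℂ) zeroInf x t ?_ hconst ?_ ?_ ?_ ?_ ?_
    · intro j
      rw [hxp, hG, map_zero]
    · intro i
      obtain ⟨j, hj⟩ := hav i 1 one_ne_zero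
      refine ⟨j, fun h0 => hj ?_⟩
      rw [hxp] at h0
      rw [hinj _ h0, Polynomial.eval_zero]
    · intro P hP i
      obtain ⟨h1, c, hc, h2⟩ := hpl P hP
      obtain ⟨c', hc'⟩ := hne c hc
      obtain ⟨h3, h4⟩ := hval P c h1 h2 _ hc'
      have hmin : Pool.Agent.Y731.FG.minOrd P x = 0 := by
        refine Pool.Agent.Y731.FG.minOrd_eq P (fun c'' hc'' => ?_) ⟨c', h3, h4⟩
        exact (Pool.Agent.TH143.LG.ge_aeval (Or.inr h1.ge) (W c'')).resolve_left hc''
      obtain ⟨j, hj⟩ := hav i c hc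
      obtain ⟨h5, h6⟩ := hval P c h1 h2 _ hj
      rw [← hxp] at h5 h6
      have h7 : localHeight (E i) (d i) P x ≤
          P.ord (aeval x (E i j)) - d i j * Pool.Agent.Y731.FG.minOrd P x :=
        ciInf_le (f := fun j : {j // aeval x (E i j) ≠ 0} =>
          P.ord (aeval x (E i j.1)) - d i j.1 * Pool.Agent.Y731.FG.minOrd P x)
          (Set.finite_range _).bddBelow ⟨j, h5⟩
      rw [hmin, h6, mul_zero, sub_zero] at h7
      exact h7
    · rw [hxp]
      exact fun h0 => hWΦ (hinj _ h0)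
    · intro c
      change Polynomial.aeval Y (W c) = ∑ j, algebraMap ℂ (RatFunc ℂ) (a c j) * Y ^ b c j
      rw [hW, map_sum]
      refine Finset.sum_congr rfl fun j _ => ?_
      rw [map_mul, map_pow, Polynomial.aeval_C, Polynomial.aeval_X]
    · rintro P ⟨c, j, c', j', h1, h2, h3⟩
      by_contra hP
      apply h3
      obtain ⟨h4, -⟩ := hpl P hP
      have h5 : ∀ c j, t c j ≠ 0 → P.ord (t c j) = 0 := by
        intro c j h
        have h6 : a c j ≠ 0 := by
          intro h0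
          apply h
          change algebraMap ℂ (RatFunc ℂ) (a c j) * Y ^ b c j = 0
          rw [h0, map_zero, zero_mul]
        change P.ord (algebraMap ℂ (RatFunc ℂ) (a c j) * Y ^ b c j) = 0
        rw [P.ord_mul ((map_ne_zero _).2 h6) (pow_ne_zero _ hY0), P.ord_pow, h4,
          P.ord_const h6, mul_zero, add_zero]
      rw [h5 c j h1, h5 c' j' h2]
  -- the height is large
  have hr : Transcendental ℂ (algebraMap (Polynomial ℂ) (RatFunc ℂ) (W c1) /
      algebraMap (Polynomial ℂ) (RatFunc ℂ) (W c0)) := by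
    have hI := IsFractionRing.injective (Polynomial ℂ) (RatFunc ℂ)
    have h0 : algebraMap (Polynomial ℂ) (RatFunc ℂ) (W c0) ≠ 0 := fun h =>
      hW0 ((map_eq_zero_iff _ hI).1 h)
    refine Pool.Agent.W619.TW.transcendental_of_not_const fun z hz => ?_
    rw [eq_div_iff h0] at hz
    refine hprop z 1 (Or.inr one_ne_zero) (hI ?_)
    rw [map_mul, map_mul, ← hz, Polynomial.C_1, map_one, mul_one,
      IsScalarTower.algebraMap_apply ℂ (Polynomial ℂ) (RatFunc ℂ)]
    rw [mul_comm]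
    rfl
  have h1 := hσh _ hr
  rw [map_div₀, hψ, hψ] at h1
  have h2 : hgt ℂ (x c1 / x c0) ≤ height ℂ x := hgt_le_height x c1 c0 hx1 hx0
  have h3 : ((M : ℤ) + 1 : ℤ) ≤ height ℂ x := by
    refine le_trans ?_ h2
    exact_mod_cast h1
  have h4 : ((M : ℝ) + 1) ≤ (height ℂ x : ℝ) := by exact_mod_cast h3
  linarith

end Pool.Agent.W2helper39.SB
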