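import Pool.Agent.W2helper39.SB.Loc
import Pool.Agent.W2helper39.SB.Eng

/-!
Holomorphic maps from the punctured disc whose homogeneous coordinates are sums of a bounded number
of functions whose zeros do not accumulate at the puncture.
-/

set_option autoImplicit false

namespace Pool.Agent.W2helper39.SB

open FF MvPolynomial Pool.Agent.W603.LV Pool.Agent.Q72.NA Pool.Agent.W603.PV
open Pool.Agent.Results.MP_70ba79_ag.SparseCurves
open Filter Topology Pool.Agent.W603.BP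

/-- values of forms at multiples -/
theorem form_smul {n : ℕ} {H : MvPolynomial (Fin n) ℂ} {m : ℕ} (hH : H.IsHomogeneous m) (a : ℂ)
    (z : Fin n → ℂ) : aeval (fun c => a * z c) H = a ^ m * aeval z H :=
  Pool.Agent.Y731.FG.aeval_smul_hom hH a z

theorem pun_form {n : ℕ} {f : ℂ → Fin n → ℂ} (hf : ∀ c, Pun fun w => f w c)
    (H : MvPolynomial (Fin n) ℂ) : Pun fun w => aeval (f w) H := by
  have h1 : ∀ᶠ w in 𝓝[≠] (0 : ℂ), ∀ c, AnalyticAt ℂ (fun w => f w c) w := by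
    rw [Filter.eventually_all]
    exact hf
  filter_upwards [h1] with w hw
  have h2 : (fun w => aeval (f w) H) = fun w => ∑ α ∈ H.support, H.coeff α * ∏ j, f w j ^ α j := by
    funext w
    rw [aeval_eq_eval, eval_eq']
  rw [h2]
  apply Finset.analyticAt_fun_sum
  intro α _
  apply AnalyticAt.fun_mul analyticAt_const
  apply Finset.analyticAt_fun_prod
  intro j _
  exact (hw j).fun_pow _

/-- **Punctured discs.** -/
theorem punct {n g q w m : ℕ} {G : Fin g → MvPolynomial (Fin (n + 1)) ℂ} {eG : Fin g → ℕ}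
    (hGh : ∀ j, (G j).IsHomogeneous (eG j))
    {E : Fin q → Fin w → MvPolynomial (Fin (n + 1)) ℂ} {d : Fin q → Fin w → ℕ}
    (hEh : ∀ i j, (E i j).IsHomogeneous (d i j))
    (Φ : MvPolynomial (Fin (n + 1)) ℂ) {eΦ : ℕ} (hΦh : Φ.IsHomogeneous eΦ)
    (hΦ : ∀ (W : Fin (n + 1) → Polynomial ℂ) (a : Fin (n + 1) → Fin m → ℂ)
      (b : Fin (n + 1) → Fin m → ℕ),
      (∀ c, W c = ∑ j, Polynomial.C (a c j) * Polynomial.X ^ b c j) →
      (∀ j, aeval W (G j) = 0) →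
      (∀ i, ∀ τ : ℂ, τ ≠ 0 → ∃ j, (aeval W (E i j)).eval τ ≠ 0) →
      (∀ τ : ℂ, τ ≠ 0 → ∃ c, (W c).eval τ ≠ 0) →
      (∃ c1 c0, W c1 * Polynomial.C ((W c0).eval 1) ≠ W c0 * Polynomial.C ((W c1).eval 1)) →
      aeval W Φ = 0)
    (f : ℂ → Fin (n + 1) → ℂ)
    (hf : ∀ j, AnalyticOnNhd ℂ (fun w => f w j) (PB 1)) (hne : ∀ w ∈ PB 1, f w ≠ 0)
    (hfG : ∀ w ∈ PB 1, ∀ j, aeval (f w) (G j) = 0)
    (hfE : ∀ w ∈ PB 1, ∀ i, ∃ j, aeval (f w) (E i j) ≠ 0)
    (t : Fin (n + 1) → Fin m → ℂ → ℂ) (ht : ∀ c j, ZU (t c j))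
    (hft : ∀ᶠ w in 𝓝[≠] (0 : ℂ), ∀ c, f w c = ∑ j, t c j w) (hess : ¬ Extends f) :
    ∀ w ∈ PB 1, aeval (f w) Φ = 0 := by
  classical
  obtain ⟨b, Y, hY, hmain⟩ := loc_main f hf hne t ht hft hess
  let W : Fin (n + 1) → ℂ → Polynomial ℂ := fun c w =>
    ∑ j, Polynomial.C (Y w * t c j w) * Polynomial.X ^ b c j
  obtain ⟨hW1, hrel, havoid, c1, c0, δ0, hδ0P, hδ0N, hnc⟩ := hmain W fun c w => rfl
  have hPB : ∀ᶠ w in 𝓝[≠] (0 : ℂ), w ∈ PB 1 := PB_mem one_pos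
  have hval : ∀ᶠ w in 𝓝[≠] (0 : ℂ), ∀ (H : MvPolynomial (Fin (n + 1)) ℂ) (k : ℕ),
      H.IsHomogeneous k → aeval (fun c => (W c w).eval 1) H = Y w ^ k * aeval (f w) H := by
    filter_upwards [hW1] with w h1 H k hH
    rw [← form_smul hH]
    congr 2
    funext c
    exact h1 c
  -- relations
  have hG : ∀ᶠ w in 𝓝[≠] (0 : ℂ), ∀ j, aeval (fun c => W c w) (G j) = 0 := by
    rw [Filter.eventually_all]
    intro j
    apply hrel
    filter_upwards [hval, hPB] with w h1 h2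
    rw [h1 _ _ (hGh j), hfG w h2 j, mul_zero]
  -- the boundary
  choose δ1 hδ1P hδ1N hδ1 using fun i => havoid w (E i) (by
    filter_upwards [hval, hPB, hY.2] with z h1 h2 h3
    obtain ⟨j, hj⟩ := hfE z h2 i
    refine ⟨j, ?_⟩
    rw [h1 _ _ (hEh i j)]
    exact mul_ne_zero (pow_ne_zero _ h3) hj)
  obtain ⟨δ2, hδ2P, hδ2N, hδ2⟩ := havoid (n + 1) (fun c => X c) (by
    filter_upwards [hW1, hPB, hY.2] with z h1 h2 h3
    obtain ⟨c, hc⟩ := Function.ne_iff.mp (hne z h2)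
    refine ⟨c, ?_⟩
    rw [aeval_X, h1]
    exact mul_ne_zero h3 hc)
  let δ : ℂ → ℂ := fun z => δ0 z * (δ2 z * ∏ i, δ1 i z)
  have hδP : Pun δ := hδ0P.mul (hδ2P.mul (Pun.prod Finset.univ fun i _ => hδ1P i))
  have hδN : Nz δ := Nz.mul hδ0P (hδ2P.mul (Pun.prod Finset.univ fun i _ => hδ1P i)) hδ0N
    (Nz.mul hδ2P (Pun.prod Finset.univ fun i _ => hδ1P i) hδ2N
      (Nz.prod Finset.univ (fun i _ => hδ1P i) fun i _ => hδ1N i))
  have hδ1' : ∀ᶠ z in 𝓝[≠] (0 : ℂ), ∀ i, δ1 i z ≠ 0 → ∀ τ : ℂ, τ ≠ 0 →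
      ∃ j, (aeval (fun c => W c z) (E i j)).eval τ ≠ 0 := by
    rw [Filter.eventually_all]
    exact hδ1
  have hfP : ∀ c, Pun fun w => f w c := fun c => on_pun one_pos (hf c)
  have hzero : ∀ᶠ z in 𝓝[≠] (0 : ℂ), aeval (f z) Φ * δ z = 0 := by
    filter_upwards [hG, hδ1', hδ2, hnc, hval, hY.2] with z h1 h2 h3 h4 h5 h6
    by_cases h0 : δ z = 0
    · rw [h0, mul_zero]
    have h7 : δ0 z ≠ 0 := left_ne_zero_of_mul h0
    have h8 : δ2 z ≠ 0 := left_ne_zero_of_mul (right_ne_zero_of_mul h0)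
    have h9 : ∏ i, δ1 i z ≠ 0 := right_ne_zero_of_mul (right_ne_zero_of_mul h0)
    have h10 := hΦ (fun c => W c z) (fun c j => Y z * t c j z) b (fun c => rfl) h1
      (fun i => h2 i (Finset.prod_ne_zero_iff.mp h9 i (Finset.mem_univ i)))
      (fun τ hτ => by
        obtain ⟨c, hc⟩ := h3 h8 τ hτ
        exact ⟨c, by simpa using hc⟩)
      ⟨c1, c0, h4 h7⟩
    have h11 : aeval (fun c => (W c z).eval 1) Φ = 0 := by
      have h12 := congrArg (Polynomial.eval 1) h10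
      rw [Polynomial.eval_zero] at h12
      rw [← h12]
      have h13 := MvPolynomial.comp_aeval_apply (f := fun c => W c z)
        (Polynomial.aeval (1 : ℂ) : Polynomial ℂ →ₐ[ℂ] ℂ) Φ
      simp only [Polynomial.coe_aeval_eq_eval] at h13
      exact h13.symm
    rw [h5 _ _ hΦh] at h11
    rw [(mul_eq_zero.mp h11).resolve_left (pow_ne_zero _ h6), zero_mul]
  have hΦP := pun_form hfP Φ
  have h1 := (pun_mul_zero hΦP hδP hzero).resolve_right hδN
  have han : AnalyticOnNhd ℂ (fun z => aeval (f z) Φ) (PB 1) := by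
    intro z hz
    have h2 : (fun w => aeval (f w) Φ) = fun w => ∑ α ∈ Φ.support, Φ.coeff α *
        ∏ j, f w j ^ α j := by
      funext w
      rw [aeval_eq_eval, eval_eq']
    rw [h2]
    apply Finset.analyticAt_fun_sum
    intro α _
    apply AnalyticAt.fun_mul analyticAt_const
    apply Finset.analyticAt_fun_prod
    intro j _
    exact (hf j z hz).fun_pow _
  exact eq_zero_on one_pos han h1

end Pool.Agent.W2helper39.SB
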