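import Pool.Agent.W2helper39.SB.Fin
import Pool.Agent.W2helper39.SB.Ent

/-!
Punctured discs and entire curves: the statements for any number of homogeneous coordinates.
-/

set_option autoImplicit false

namespace Pool.Agent.W2helper39.SB

open FF MvPolynomial Metric
open Pool.Agent.Results.MP_70ba79_ag.SparseCurves (OnX)
open Filter Topology Pool.Agent.W603.BP

/-- The vector `f` of homogeneous coordinates is that of a holomorphic map from the open set `S` to
the variety `X - D`, `X` with the equations `G j = 0` and `D` the union of the subvarieties with the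
equations `E i j = 0`, `j < w`. -/
structure MapOn {M g q w : ℕ} (G : Fin g → MvPolynomial (Fin M) ℂ)
    (E : Fin q → Fin w → MvPolynomial (Fin M) ℂ) (S : Set ℂ) (f : ℂ → Fin M → ℂ) : Prop where
  hol : DifferentiableOn ℂ f S
  ne : ∀ z ∈ S, f z ≠ 0
  mem : ∀ z ∈ S, OnX G (f z)
  off : ∀ z ∈ S, ∀ i, ∃ j, aeval (f z) (E i j) ≠ 0

/-- Every coordinate is the sum of `m` holomorphic functions with the property `P`. -/
def SumsOf {M : ℕ} (m : ℕ) (S : Set ℂ) (P : (ℂ → ℂ) → Prop) (f : ℂ → Fin M → ℂ) : Prop :=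
  ∃ t : Fin M → Fin m → ℂ → ℂ, (∀ c j, DifferentiableOn ℂ (t c j) S ∧ P (t c j)) ∧
    ∀ z ∈ S, ∀ c, f z c = ∑ j, t c j z

/-- The map from the punctured disc extends to the disc. -/
def Ext0 {M : ℕ} (f : ℂ → Fin M → ℂ) : Prop :=
  ∃ g : ℂ → Fin M → ℂ, DifferentiableOn ℂ g (ball 0 1) ∧ (∀ z ∈ ball (0 : ℂ) 1, g z ≠ 0) ∧
    ∀ z ∈ ball (0 : ℂ) 1 \ {0}, ∃ c : ℂ, f z = c • g z

/-- The function is zero on the punctured disc or its zeros do not accumulate at the puncture. -/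
def NoAcc (t : ℂ → ℂ) : Prop :=
  (∀ z ∈ ball (0 : ℂ) 1 \ {0}, t z = 0) ∨ ∃ r : ℝ, 0 < r ∧ ∀ z : ℂ, z ≠ 0 → ‖z‖ < r → t z ≠ 0

theorem NoAcc.zu {t : ℂ → ℂ} (ht : DifferentiableOn ℂ t (ball 0 1 \ {0})) (h : NoAcc t) : ZU t := by
  refine ⟨?_, ?_⟩
  · apply on_pun one_pos
    intro w hw
    exact ht.analyticAt (disc_open.mem_nhds (mem_disc.mpr hw))
  · rcases h with h | ⟨r, hr, h⟩
    · left
      filter_upwards [PB_mem one_pos] with w hw
      exact h w (mem_disc.mpr hw)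
    · right
      filter_upwards [PB_mem hr] with w hw
      exact h w hw.1 hw.2

/-- The multiplicative group: the property of the exceptional form. -/
def GmProp {M g q w : ℕ} (m : ℕ) (G : Fin g → MvPolynomial (Fin M) ℂ)
    (E : Fin q → Fin w → MvPolynomial (Fin M) ℂ) (Φ : MvPolynomial (Fin M) ℂ) : Prop :=
  ∀ (W : Fin M → Polynomial ℂ) (a : Fin M → Fin m → ℂ) (b : Fin M → Fin m → ℕ),
    (∀ c, W c = ∑ j, Polynomial.C (a c j) * Polynomial.X ^ b c j) →
    (∀ j, aeval W (G j) = 0) →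
    (∀ i, ∀ τ : ℂ, τ ≠ 0 → ∃ j, (aeval W (E i j)).eval τ ≠ 0) →
    (∀ τ : ℂ, τ ≠ 0 → ∃ c, (W c).eval τ ≠ 0) →
    (∃ c1 c0, W c1 * Polynomial.C ((W c0).eval 1) ≠ W c0 * Polynomial.C ((W c1).eval 1)) →
    aeval W Φ = 0

section

variable {M g q w m : ℕ} {G : Fin g → MvPolynomial (Fin M) ℂ} {eG : Fin g → ℕ}
  {E : Fin q → Fin w → MvPolynomial (Fin M) ℂ} {d : Fin q → Fin w → ℕ}

theorem punct' (hGh : ∀ j, (G j).IsHomogeneous (eG j)) (hEh : ∀ i j, (E i j).IsHomogeneous (d i j))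
    (Φ : MvPolynomial (Fin M) ℂ) {eΦ : ℕ} (hΦh : Φ.IsHomogeneous eΦ) (hΦ : GmProp m G E Φ)
    (f : ℂ → Fin M → ℂ) (hf : MapOn G E (ball 0 1 \ {0}) f)
    (ht : SumsOf m (ball 0 1 \ {0}) NoAcc f) (hess : ¬ Ext0 f) :
    ∀ z ∈ ball (0 : ℂ) 1 \ {0}, aeval (f z) Φ = 0 := by
  rcases M with _ | n
  · intro z hz
    exact absurd (funext fun c => c.elim0) (hf.ne z hz)
  obtain ⟨t, ht1, ht2⟩ := ht
  have hfa : ∀ j, AnalyticOnNhd ℂ (fun w => f w j) (PB 1) := by
    intro j w hw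
    have h1 : DifferentiableOn ℂ (fun w => f w j) (ball 0 1 \ {0}) := fun z hz =>
      (differentiableWithinAt_pi.mp (hf.hol z hz)) j
    exact h1.analyticAt (disc_open.mem_nhds (mem_disc.mpr hw))
  have h := punct hGh hEh Φ hΦh hΦ f hfa (fun w hw => hf.ne w (mem_disc.mpr hw))
    (fun w hw => hf.mem w (mem_disc.mpr hw)) (fun w hw => hf.off w (mem_disc.mpr hw)) t
    (fun c j => (ht1 c j).2.zu (ht1 c j).1) (by
      filter_upwards [PB_mem one_pos] with w hw
      exact ht2 w (mem_disc.mpr hw)) hess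
  exact fun z hz => h z (mem_disc.mp hz)

theorem entire' (hGh : ∀ j, (G j).IsHomogeneous (eG j)) (hEh : ∀ i j, (E i j).IsHomogeneous (d i j))
    (Φ : MvPolynomial (Fin M) ℂ) {eΦ : ℕ} (hΦh : Φ.IsHomogeneous eΦ) (hΦ : GmProp m G E Φ)
    (f : ℂ → Fin M → ℂ) (hf : MapOn G E Set.univ f)
    (ht : SumsOf m Set.univ (fun t => (∀ z, t z = 0) ∨ {z | t z = 0}.Finite) f)
    (hess : ¬ Ext0 fun w => f w⁻¹) : ∀ z, aeval (f z) Φ = 0 := by
  obtain ⟨t, ht1, ht2⟩ := ht
  have hd : ∀ c, Differentiable ℂ fun z => f z c := fun c z =>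
    (differentiableWithinAt_univ.mp ((differentiableWithinAt_pi.mp (hf.hol z (Set.mem_univ z))) c))
  have htd : ∀ c j, Differentiable ℂ (t c j) := fun c j z =>
    differentiableWithinAt_univ.mp ((ht1 c j).1 z (Set.mem_univ z))
  have hinv : ∀ (u : ℂ → ℂ), Differentiable ℂ u → DifferentiableOn ℂ (fun w => u w⁻¹)
      (ball 0 1 \ {0}) := fun u hu z hz =>
    ((hu _).comp z (differentiableAt_inv hz.2)).differentiableWithinAt
  have h := punct' hGh hEh Φ hΦh hΦ (fun w => f w⁻¹) ⟨by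
      intro z hz
      rw [differentiableWithinAt_pi]
      exact fun c => hinv _ (hd c) z hz, fun z _ => hf.ne _ (Set.mem_univ _),
      fun z _ => hf.mem _ (Set.mem_univ _), fun z _ => hf.off _ (Set.mem_univ _)⟩
    ⟨fun c j w => t c j w⁻¹, fun c j => ⟨hinv _ (htd c j), ?_⟩,
      fun z _ c => ht2 _ (Set.mem_univ _) c⟩ hess
  · intro z
    have h1 : Differentiable ℂ fun z => aeval (f z) Φ := by
      have h2 : (fun w => aeval (f w) Φ) = fun w => ∑ α ∈ Φ.support, Φ.coeff α *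
          ∏ j, f w j ^ α j := by
        funext w
        rw [aeval_eq_eval, eval_eq']
      rw [h2]
      exact Differentiable.fun_sum fun α _ => (Differentiable.fun_finsetProd fun j _ =>
        (hd j).fun_pow _).const_mul _
    refine zero_of_inv h1 ?_ z
    filter_upwards [PB_mem one_pos] with w hw
    exact h w (mem_disc.mpr hw)
  · rcases (ht1 c j).2 with h1 | h1
    · exact Or.inl fun z _ => h1 _
    · right
      obtain ⟨R, hR⟩ := h1.isBounded.exists_norm_le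
      refine ⟨(|R| + 1)⁻¹, by positivity, fun z hz hzr h2 => ?_⟩
      have h3 : ‖z⁻¹‖ ≤ R := hR _ h2
      rw [norm_inv] at h3
      have h4 : 0 < ‖z‖ := norm_pos_iff.mpr hz
      have h5 : |R| + 1 < ‖z‖⁻¹ := by
        rw [lt_inv_comm₀ (by positivity) h4]
        exact hzr
      linarith [le_abs_self R]

end

end Pool.Agent.W2helper39.SB
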