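import Pool.Agent.W2helper39.SB.Lat
import Pool.Agent.W603.BP.MFun

/-!
Polynomials with meromorphic coefficients in independent germs without zeros.
-/

set_option autoImplicit false

namespace Pool.Agent.W2helper39.SB

open Filter Topology Pool.Agent.W603.BP

/-- independent germs without zeros -/
structure Dat {s : ℕ} (U : ℂ → ℂ) (V : Fin s → ℂ → ℂ) : Prop where
  hU : Un U
  hV : ∀ k, Un (V k)
  ind : ∀ (a : ℤ) (c : Fin s → ℤ), (∃ ρ : ℂ → ℂ, MeromorphicAt ρ 0 ∧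
    ∀ᶠ w in 𝓝[≠] (0 : ℂ), U w ^ a * ∏ k, V k w ^ c k = ρ w) → a = 0 ∧ c = 0

variable {s : ℕ} {U : ℂ → ℂ} {V : Fin s → ℂ → ℂ}

variable (U V) in
/-- monomials -/
def mn (a : ℕ × (Fin s →₀ ℕ)) (w : ℂ) : ℂ := U w ^ a.1 * ∏ k, V k w ^ a.2 k

theorem Dat.mn_un (h : Dat U V) (a : ℕ × (Fin s →₀ ℕ)) : Un (mn U V a) :=
  (h.hU.pow _).mul (Un.prod Finset.univ fun k _ => (h.hV k).pow _)

theorem Dat.mn_col (h : Dat U V) (a b : ℕ × (Fin s →₀ ℕ)) (hg : Gr (mn U V a) (mn U V b)) :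
    a = b := by
  obtain ⟨ρ, hρ, he⟩ := growth_mero (h.mn_un a).1 (h.mn_un b).1 (h.mn_un b).nz hg
  obtain ⟨h1, h2⟩ := h.ind ((a.1 : ℤ) - b.1) (fun k => (a.2 k : ℤ) - b.2 k) ⟨ρ, hρ, by
    have hV : ∀ᶠ w in 𝓝[≠] (0 : ℂ), ∀ k, V k w ≠ 0 := by
      rw [Filter.eventually_all]
      exact fun k => (h.hV k).2
    filter_upwards [he, h.hU.2, hV, (h.mn_un b).2] with w h1 h2 h3 h4
    rw [eq_comm, eq_div_of_mul_eq h4 h1.symm]
    simp only [mn]
    rw [zpow_sub₀ h2, zpow_natCast, zpow_natCast]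
    have h5 : ∏ k, V k w ^ ((a.2 k : ℤ) - b.2 k) = (∏ k, V k w ^ a.2 k) / ∏ k, V k w ^ b.2 k := by
      rw [← Finset.prod_div_distrib]
      exact Finset.prod_congr rfl fun k _ => by
        rw [zpow_sub₀ (h3 k), zpow_natCast, zpow_natCast]
    rw [h5, mul_div_mul_comm]⟩
  refine Prod.ext (by omega) (Finsupp.ext fun k => ?_)
  have := congrFun h2 k
  simp only [Pi.zero_apply] at this
  omega

theorem Dat.mn_indep (h : Dat U V) (A : Finset (ℕ × (Fin s →₀ ℕ)))
    (ρ : ℕ × (Fin s →₀ ℕ) → ℂ → ℂ) (hρ : ∀ a, MeromorphicAt (ρ a) 0)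
    (h0 : ∀ᶠ w in 𝓝[≠] (0 : ℂ), ∑ a ∈ A, ρ a w * mn U V a w = 0) :
    ∀ a ∈ A, ∀ᶠ w in 𝓝[≠] (0 : ℂ), ρ a w = 0 := by
  classical
  intro a ha
  have h1 := color_sums (N := (A.card - 1) ^ 2 + 1) (Nat.succ_pos _) (mn U V)
    (fun a => (h.mn_un a).1) (fun a => root (h.mn_un a).1 (h.mn_un a).2 (Nat.succ_pos _)) id
    (fun a b _ _ hg => h.mn_col a b hg) A (Nat.le_succ _) ρ hρ h0 a
  have h2 : A.filter (fun b => id b = a) = {a} := by
    ext b
    simp only [id, Finset.mem_filter, Finset.mem_singleton]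
    exact ⟨fun h => h.2, fun h => ⟨h ▸ ha, h⟩⟩
  rw [h2] at h1
  filter_upwards [h1, (h.mn_un a).2] with w h3 h4
  rw [Finset.sum_singleton] at h3
  exact (mul_eq_zero.mp h3).resolve_right h4

theorem Dat.mn_unit (h : Dat U V) {v : ℂ → ℂ} (hv : Un v) (A : Finset (ℕ × (Fin s →₀ ℕ)))
    (ρ : ℕ × (Fin s →₀ ℕ) → ℂ → ℂ) (hρ : ∀ a, MeromorphicAt (ρ a) 0)
    (h0 : ∀ᶠ w in 𝓝[≠] (0 : ℂ), ∑ a ∈ A, ρ a w * mn U V a w = v w) :
    ∃ a0, ∀ a ∈ A, a ≠ a0 → ∀ᶠ w in 𝓝[≠] (0 : ℂ), ρ a w = 0 := by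
  classical
  let e : Option (ℕ × (Fin s →₀ ℕ)) → ℂ → ℂ := fun o => o.elim v (mn U V)
  let ρ' : Option (ℕ × (Fin s →₀ ℕ)) → ℂ → ℂ := fun o => o.elim (fun _ => -1) ρ
  have heU : ∀ o, Un (e o) := by
    rintro (_ | a)
    · exact hv
    · exact h.mn_un a
  have hgs : ∀ o o', Gr (e o) (e o') → Gr (e o') (e o) := by
    intro o o' hg
    exact (MRel.symm (growth_mero (heU o).1 (heU o').1 (heU o').nz hg) (heU o).nz).gr
  let c0 : Option (ℕ × (Fin s →₀ ℕ)) := if h : ∃ a, Gr v (mn U V a) then some h.choose else none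
  have hc0 : ∀ a, Gr v (mn U V a) → c0 = some a := by
    intro a ha
    have hex : ∃ a, Gr v (mn U V a) := ⟨a, ha⟩
    have h1 : c0 = some hex.choose := dif_pos hex
    rw [h1]
    congr 1
    have h2 : Gr (mn U V hex.choose) v := hgs none (some hex.choose) hex.choose_spec
    exact h.mn_col _ _ (h2.trans ha)
  let col : Option (ℕ × (Fin s →₀ ℕ)) → Option (ℕ × (Fin s →₀ ℕ)) := fun o => o.elim c0 some
  have hcol : ∀ o o', Nz (e o) → Nz (e o') → Gr (e o) (e o') → col o = col o' := by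
    rintro (_ | a) (_ | b) _ _ hg
    · rfl
    · exact hc0 b hg
    · exact (hc0 a (hgs _ _ hg)).symm
    · exact congrArg some (h.mn_col a b hg)
  have hmain := color_sums (N := (A.insertNone.card - 1) ^ 2 + 1) (Nat.succ_pos _) e
    (fun o => (heU o).1) (fun o => root (heU o).1 (heU o).2 (Nat.succ_pos _)) col hcol
    A.insertNone (Nat.le_succ _) ρ' (by
      rintro (_ | a)
      · exact MeromorphicAt.const _ _
      · exact hρ a) (by
      filter_upwards [h0] with w hw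
      rw [Finset.sum_insertNone]
      simp only [ρ', e, Option.elim_none, Option.elim_some]
      rw [hw]
      ring)
  refine ⟨c0.getD 0, fun a ha hne => ?_⟩
  have hca : c0 ≠ some a := by
    intro h1
    apply hne
    rw [h1]
    rfl
  have h1 := hmain (some a)
  have h2 : A.insertNone.filter (fun o => col o = some a) = {some a} := by
    ext o
    rw [Finset.mem_filter, Finset.mem_singleton]
    constructor
    · rintro ⟨-, ho⟩
      rcases o with _ | b
      · exact absurd ho hca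
      · exact ho
    · rintro rfl
      exact ⟨Finset.some_mem_insertNone.mpr ha, rfl⟩
  rw [h2] at h1
  filter_upwards [h1, (h.mn_un a).2] with w h3 h4
  rw [Finset.sum_singleton] at h3
  exact (mul_eq_zero.mp h3).resolve_right h4

/-- polynomials over the field of meromorphic germs -/
abbrev AA (s : ℕ) : Type := MvPolynomial (Fin s) MG

variable (V) in
/-- evaluation -/
noncomputable def EvA : AA s →+* Gm := MvPolynomial.eval₂Hom MG.subtype fun k => gm (V k)

variable (U V) in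
/-- evaluation -/
noncomputable def Ev : Polynomial (AA s) →+* Gm := Polynomial.eval₂RingHom (EvA V) (gm U)

/-- representatives -/
noncomputable def rep (c : MG) : ℂ → ℂ := c.2.choose

theorem rep_mero (c : MG) : MeromorphicAt (rep c) 0 := c.2.choose_spec.1

theorem rep_eq (c : MG) : gm (rep c) = c := c.2.choose_spec.2

theorem rep_zero {c : MG} (h : ∀ᶠ w in 𝓝[≠] (0 : ℂ), rep c w = 0) : c = 0 := by
  apply Subtype.ext
  rw [← rep_eq c]
  exact gm_eq_zero.mpr h

/-- the coefficients -/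
noncomputable def cf (p : Polynomial (AA s)) (a : ℕ × (Fin s →₀ ℕ)) : MG := (p.coeff a.1).coeff a.2

/-- a finite set which contains the exponents -/
noncomputable def sp (p : Polynomial (AA s)) : Finset (ℕ × (Fin s →₀ ℕ)) :=
  p.support ×ˢ (p.support.biUnion fun n => (p.coeff n).support)

theorem mem_sp {p : Polynomial (AA s)} {a : ℕ × (Fin s →₀ ℕ)} (h : cf p a ≠ 0) : a ∈ sp p := by
  unfold sp cf at *
  have h1 : p.coeff a.1 ≠ 0 := fun h0 => h (by rw [h0]; simp)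
  rw [Finset.mem_product]
  exact ⟨Polynomial.mem_support_iff.mpr h1, Finset.mem_biUnion.mpr
    ⟨a.1, Polynomial.mem_support_iff.mpr h1, MvPolynomial.mem_support_iff.mpr h⟩⟩

theorem gm_mn (a : ℕ × (Fin s →₀ ℕ)) : gm (mn U V a) = gm U ^ a.1 * ∏ k, gm (V k) ^ a.2 k := by
  have h1 : mn U V a = U ^ a.1 * ∏ k, V k ^ a.2 k := by
    funext w
    simp [mn]
  rw [h1, map_mul, map_pow, map_prod]
  congr 1

theorem Ev_eq (p : Polynomial (AA s)) :
    Ev U V p = gm fun w => ∑ a ∈ sp p, rep (cf p a) w * mn U V a w := by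
  have h1 : ∀ a, gm (fun w => rep (cf p a) w * mn U V a w) =
      ((cf p a : MG) : Gm) * (gm U ^ a.1 * ∏ k, gm (V k) ^ a.2 k) := by
    intro a
    rw [gm_mul, rep_eq, gm_mn]
  rw [gm_sum, Finset.sum_congr rfl fun a _ => h1 a]
  unfold Ev sp
  rw [Finset.sum_product, Polynomial.coe_eval₂RingHom, Polynomial.eval₂_eq_sum, Polynomial.sum_def]
  refine Finset.sum_congr rfl fun n hn => ?_
  have h2 : EvA V (p.coeff n) = ∑ α ∈ p.support.biUnion (fun n => (p.coeff n).support),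
      (((p.coeff n).coeff α : MG) : Gm) * ∏ k, gm (V k) ^ α k := by
    unfold EvA
    rw [MvPolynomial.coe_eval₂Hom, MvPolynomial.eval₂_eq']
    refine Finset.sum_subset (fun α hα => Finset.mem_biUnion.mpr ⟨n, hn, hα⟩) fun α _ hα => ?_
    rw [MvPolynomial.notMem_support_iff.mp hα]
    simp
  rw [h2, Finset.sum_mul]
  refine Finset.sum_congr rfl fun α _ => ?_
  simp only [cf]
  ring

theorem Dat.Ev_inj (h : Dat U V) {p : Polynomial (AA s)} (hp : Ev U V p = 0) : p = 0 := by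
  rw [Ev_eq, gm_eq_zero] at hp
  have h1 := h.mn_indep (sp p) (fun a => rep (cf p a)) (fun a => rep_mero _) hp
  have h2 : ∀ a, cf p a = 0 := by
    intro a
    by_contra hne
    exact hne (rep_zero (h1 a (mem_sp hne)))
  ext n α
  simpa [cf] using congrArg Subtype.val (h2 (n, α))

theorem Dat.Ev_unit (h : Dat U V) {p : Polynomial (AA s)} {v : ℂ → ℂ} (hv : Un v)
    (hp : Ev U V p = gm v) (h0 : p.coeff 0 ≠ 0) : p.natDegree = 0 := by
  rw [Ev_eq, gm_eq] at hp
  obtain ⟨a0, h1⟩ := h.mn_unit hv (sp p) (fun a => rep (cf p a)) (fun a => rep_mero _) hp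
  have h2 : ∀ a, cf p a ≠ 0 → a = a0 := by
    intro a ha
    by_contra hne
    exact ha (rep_zero (h1 a (mem_sp ha) hne))
  have hex : ∀ n, p.coeff n ≠ 0 → n = a0.1 := by
    intro n hn
    obtain ⟨α, hα⟩ := MvPolynomial.ne_zero_iff.mp hn
    have := h2 (n, α) hα
    rw [← this]
  have hp0 : p ≠ 0 := fun h0' => h0 (by rw [h0']; simp)
  have h3 := hex 0 h0
  have h4 := hex p.natDegree (by
    rw [← Polynomial.leadingCoeff]
    exact Polynomial.leadingCoeff_ne_zero.mpr hp0)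
  omega

end Pool.Agent.W2helper39.SB
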