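import Mathlib

/-!
Finitely many polynomials in one variable over a factorial ring: either they have a common factor of
positive degree with a nonzero constant term, or a monomial is a combination of them.
-/

set_option autoImplicit false

namespace Pool.Agent.W2helper39.SB

open Polynomial

theorem gcd_alt {A : Type} [CommRing A] [IsDomain A] [UniqueFactorizationMonoid A] {w : ℕ}
    (p : Fin w → A[X]) (hp : ∃ j, p j ≠ 0) :
    (∃ q : A[X], (∀ j, q ∣ p j) ∧ 0 < q.natDegree ∧ q.coeff 0 ≠ 0) ∨
    ∃ (h : Fin w → A[X]) (D : A) (k : ℕ), D ≠ 0 ∧ ∑ j, h j * p j = C D * X ^ k := by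
  classical
  obtain ⟨_⟩ : Nonempty (NormalizedGCDMonoid A) := inferInstance
  let K := FractionRing A
  let φ : A[X] →+* K[X] := mapRingHom (algebraMap A K)
  have hinj : Function.Injective φ := Polynomial.map_injective _ (IsFractionRing.injective A K)
  let I : Ideal K[X] := Ideal.span (Set.range fun j => φ (p j))
  obtain ⟨g, hg⟩ := (IsPrincipalIdealRing.principal I).principal
  have hgI : I = Ideal.span {g} := hg
  have hg0 : g ≠ 0 := by
    rintro rfl
    obtain ⟨j, hj⟩ := hp
    apply hj
    apply hinj
    rw [map_zero]
    have h1 : φ (p j) ∈ I := Ideal.subset_span ⟨j, rfl⟩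
    rw [hgI] at h1
    simpa using h1
  have hgd : ∀ j, g ∣ φ (p j) := fun j => by
    have h1 : φ (p j) ∈ I := Ideal.subset_span ⟨j, rfl⟩
    rw [hgI] at h1
    exact Ideal.mem_span_singleton.mp h1
  -- split off the power of the variable
  obtain ⟨g', hg', hg'0⟩ := Polynomial.exists_eq_pow_rootMultiplicity_mul_and_not_dvd g hg0 0
  set k := g.rootMultiplicity 0 with hk
  rw [C_0, sub_zero] at hg' hg'0
  rw [X_dvd_iff] at hg'0
  rcases Nat.eq_zero_or_pos g'.natDegree with hdeg | hdeg
  · right
    obtain ⟨c, rfl⟩ := natDegree_eq_zero.mp hdeg
    have hc : c ≠ 0 := by simpa using hg'0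
    have hgm : g ∈ I := by
      rw [hgI]
      exact Ideal.mem_span_singleton_self g
    obtain ⟨a, ha⟩ := Ideal.mem_span_range_iff_exists_fun.mp hgm
    have hint : ∀ j, ∃ (b : A) (a' : A[X]), b ≠ 0 ∧ φ a' = C (algebraMap A K b) * a j := by
      intro j
      obtain ⟨b, hbm, hb⟩ := IsLocalization.integerNormalization_spec (nonZeroDivisors A) (a j)
      refine ⟨b, IsLocalization.integerNormalization (nonZeroDivisors A) (a j),
        nonZeroDivisors.ne_zero hbm, ?_⟩
      change Polynomial.map _ _ = _
      rw [hb]
      ext n
      rw [coeff_C_mul, coeff_smul, Algebra.smul_def]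
    choose b a' hb ha' using hint
    let B : A := ∏ j, b j
    have hB : B ≠ 0 := Finset.prod_ne_zero_iff.mpr fun j _ => hb j
    let h : Fin w → A[X] := fun j => C (∏ i ∈ Finset.univ.erase j, b i) * a' j
    have hh : ∀ j, φ (h j) = C (algebraMap A K B) * a j := by
      intro j
      simp only [h]
      rw [map_mul, ha', ← mul_assoc]
      congr 1
      change Polynomial.map _ (C _) * _ = _
      rw [map_C, ← C_mul, ← map_mul, Finset.prod_erase_mul _ _ (Finset.mem_univ j)]
    have hsum : φ (∑ j, h j * p j) = C (algebraMap A K B * c) * X ^ k := by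
      rw [map_sum]
      have h1 : ∀ j, φ (h j * p j) = C (algebraMap A K B) * (a j * φ (p j)) := by
        intro j
        rw [map_mul, hh]
        ring
      rw [Finset.sum_congr rfl fun j _ => h1 j, ← Finset.mul_sum, ha, hg', C_mul]
      ring
    let D : A := (∑ j, h j * p j).coeff k
    have hD : algebraMap A K D = algebraMap A K B * c := by
      have h1 := congrArg (fun q => q.coeff k) hsum
      simp only [coeff_C_mul, coeff_X_pow, if_true, mul_one] at h1
      rw [← h1]
      change _ = (Polynomial.map _ _).coeff k
      rw [coeff_map]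
    refine ⟨h, D, k, ?_, ?_⟩
    · intro h0
      rw [h0, map_zero] at hD
      refine mul_ne_zero ?_ hc hD.symm
      intro h1
      exact hB ((IsFractionRing.injective A K) (by rw [h1, map_zero]))
    · apply hinj
      rw [hsum, ← hD]
      change _ = Polynomial.map _ (C D * X ^ k)
      rw [Polynomial.map_mul, Polynomial.map_pow, map_C, map_X]
  · left
    obtain ⟨b, hbm, hb⟩ := IsLocalization.integerNormalization_spec (nonZeroDivisors A) g'
    set G := IsLocalization.integerNormalization (nonZeroDivisors A) g' with hG
    have hbK : algebraMap A K b ≠ 0 := by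
      intro h1
      exact nonZeroDivisors.ne_zero hbm ((IsFractionRing.injective A K) (by rw [h1, map_zero]))
    have hGm : φ G = C (algebraMap A K b) * g' := by
      change Polynomial.map _ _ = _
      rw [hb]
      ext n
      rw [coeff_C_mul, coeff_smul, Algebra.smul_def]
    have hG0 : G ≠ 0 := by
      intro h0
      rw [h0, map_zero] at hGm
      have h1 : g' = 0 := (mul_eq_zero.mp hGm.symm).resolve_left (by simpa using hbK)
      rw [h1] at hg'0
      exact hg'0 (by simp)
    have hprim := G.isPrimitive_primPart
    have hGeq := G.eq_C_content_mul_primPart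
    have hcont : G.content ≠ 0 := fun h0 => hG0 (content_eq_zero_iff.mp h0)
    have hcK : algebraMap A K G.content ≠ 0 := by
      intro h1
      exact hcont ((IsFractionRing.injective A K) (by rw [h1, map_zero]))
    have hPm : C (algebraMap A K G.content) * φ G.primPart = C (algebraMap A K b) * g' := by
      rw [← hGm]
      conv_rhs => rw [hGeq]
      rw [map_mul]
      congr 1
      change _ = Polynomial.map _ (C _)
      rw [map_C]
    refine ⟨G.primPart, fun j => ?_, ?_, ?_⟩
    · by_cases hpj : p j = 0
      · rw [hpj]
        exact dvd_zero _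
      have h1 : φ G.primPart ∣ φ (p j) := by
        have h2 : g' ∣ φ (p j) := (Dvd.intro_left _ hg'.symm).trans (hgd j)
        have h3 : φ G.primPart ∣ g' := by
          refine ⟨C (algebraMap A K G.content / algebraMap A K b), ?_⟩
          have h4 : g' = C (algebraMap A K b)⁻¹ * (C (algebraMap A K b) * g') := by
            rw [← mul_assoc, ← C_mul, inv_mul_cancel₀ hbK, C_1, one_mul]
          rw [h4, ← hPm, ← mul_assoc, ← C_mul, mul_comm, div_eq_inv_mul]
        exact h3.trans h2
      have h5 : (p j).content ≠ 0 := fun h0 => hpj (content_eq_zero_iff.mp h0)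
      have h5K : algebraMap A K (p j).content ≠ 0 := by
        intro h1
        exact h5 ((IsFractionRing.injective A K) (by rw [h1, map_zero]))
      have h6 : φ G.primPart ∣ φ (p j).primPart := by
        have h7 : φ (p j) = C (algebraMap A K (p j).content) * φ (p j).primPart := by
          conv_lhs => rw [(p j).eq_C_content_mul_primPart]
          rw [map_mul]
          congr 1
          change Polynomial.map _ (C _) = _
          rw [map_C]
        rw [h7] at h1
        have h8 : IsUnit (C (algebraMap A K (p j).content)) := by
          rw [isUnit_C]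
          exact isUnit_iff_ne_zero.mpr h5K
        exact (IsUnit.dvd_mul_left h8).mp h1
      have h9 := (hprim.dvd_iff_fraction_map_dvd_fraction_map K).mpr h6
      rw [(p j).eq_C_content_mul_primPart]
      exact h9.mul_left _
    · have h1 : (φ G.primPart).natDegree = g'.natDegree := by
        have h2 := congrArg natDegree hPm
        rwa [natDegree_C_mul hcK, natDegree_C_mul hbK] at h2
      have h3 : (φ G.primPart).natDegree = G.primPart.natDegree :=
        natDegree_map_eq_of_injective (IsFractionRing.injective A K) _
      omega
    · intro h0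
      have h2 := congrArg (fun q => q.coeff 0) hPm
      simp only [coeff_C_mul] at h2
      have h3 : (φ G.primPart).coeff 0 = 0 := by
        change (Polynomial.map _ _).coeff 0 = 0
        rw [coeff_map, h0, map_zero]
      rw [h3, mul_zero] at h2
      exact mul_ne_zero hbK hg'0 h2.symm

end Pool.Agent.W2helper39.SB
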