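import Pool.Agent.W603.BP.Lat

/-!
Germs without zeros at a puncture modulo meromorphic germs: a basis of a finitely generated
subgroup, adapted to a linear form that separates given elements.
-/

set_option autoImplicit false

namespace Pool.Agent.W2helper39.SB

open Filter Topology Pool.Agent.W603.BP

/-- germs without zeros at the puncture -/
def Un (u : ℂ → ℂ) : Prop := Pun u ∧ ∀ᶠ w in 𝓝[≠] (0 : ℂ), u w ≠ 0

theorem Un.nz {u : ℂ → ℂ} (h : Un u) : Nz u := by
  intro h0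
  obtain ⟨w, h1, h2⟩ := (h0.and h.2).exists
  exact h2 h1

theorem Un.one : Un fun _ => 1 := ⟨Pun.const 1, Eventually.of_forall fun _ => one_ne_zero⟩

theorem Un.mul {u v : ℂ → ℂ} (hu : Un u) (hv : Un v) : Un fun w => u w * v w :=
  ⟨hu.1.mul hv.1, by
    filter_upwards [hu.2, hv.2] with w h1 h2
    exact mul_ne_zero h1 h2⟩

theorem Un.zpow {u : ℂ → ℂ} (hu : Un u) (a : ℤ) : Un fun w => u w ^ a :=
  ⟨by
    filter_upwards [hu.1, hu.2] with w h1 h2
    exact h1.fun_zpow h2, by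
    filter_upwards [hu.2] with w h2
    exact zpow_ne_zero a h2⟩

theorem Un.pow {u : ℂ → ℂ} (hu : Un u) (a : ℕ) : Un fun w => u w ^ a :=
  ⟨hu.1.pow a, by
    filter_upwards [hu.2] with w h2
    exact pow_ne_zero a h2⟩

theorem Un.prod {ι : Type} (s : Finset ι) {u : ι → ℂ → ℂ} (hu : ∀ i ∈ s, Un (u i)) :
    Un fun w => ∏ i ∈ s, u i w :=
  ⟨Pun.prod s fun i hi => (hu i hi).1, by
    have h1 : ∀ᶠ w in 𝓝[≠] (0 : ℂ), ∀ i ∈ s, u i w ≠ 0 :=
      (Filter.eventually_all_finset s).mpr fun i hi => (hu i hi).2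
    filter_upwards [h1] with w h2
    exact Finset.prod_ne_zero_iff.mpr h2⟩

/-- monomials -/
noncomputable def mono {n : ℕ} (u : Fin n → ℂ → ℂ) (γ : Fin n → ℤ) (w : ℂ) : ℂ := ∏ p, u p w ^ γ p

section mono

variable {n : ℕ} {u : Fin n → ℂ → ℂ}

theorem mono_add {w : ℂ} (hw : ∀ p, u p w ≠ 0) (γ γ' : Fin n → ℤ) :
    mono u (γ + γ') w = mono u γ w * mono u γ' w := by
  unfold mono
  rw [← Finset.prod_mul_distrib]
  exact Finset.prod_congr rfl fun p _ => by rw [Pi.add_apply, zpow_add₀ (hw p)]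

theorem mono_smul (γ : Fin n → ℤ) (a : ℤ) (w : ℂ) :
    mono u (a • γ) w = mono u γ w ^ a := by
  unfold mono
  rw [← Finset.prod_zpow]
  exact Finset.prod_congr rfl fun p _ => by
    rw [Pi.smul_apply, smul_eq_mul, mul_comm, zpow_mul]

theorem mono_sub {w : ℂ} (hw : ∀ p, u p w ≠ 0) (γ γ' : Fin n → ℤ) :
    mono u (γ - γ') w = mono u γ w / mono u γ' w := by
  unfold mono
  rw [← Finset.prod_div_distrib]
  exact Finset.prod_congr rfl fun p _ => by rw [Pi.sub_apply, zpow_sub₀ (hw p)]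

theorem mono_sum {ι : Type} (s : Finset ι) {w : ℂ} (hw : ∀ p, u p w ≠ 0) (γ : ι → Fin n → ℤ) :
    mono u (∑ i ∈ s, γ i) w = ∏ i ∈ s, mono u (γ i) w := by
  classical
  induction s using Finset.induction_on with
  | empty => simp [mono]
  | insert a s ha ih => rw [Finset.sum_insert ha, Finset.prod_insert ha, mono_add hw, ih]

theorem mono_single (p : Fin n) (w : ℂ) : mono u (Pi.single p 1) w = u p w := by
  classical
  unfold mono
  rw [Finset.prod_eq_single p]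
  · simp
  · intro q _ hq
    simp [hq]
  · intro h
    exact absurd (Finset.mem_univ _) h

theorem mono_ne {w : ℂ} (hw : ∀ p, u p w ≠ 0) (γ : Fin n → ℤ) : mono u γ w ≠ 0 :=
  Finset.prod_ne_zero_iff.mpr fun p _ => zpow_ne_zero _ (hw p)

theorem ev_all (hu : ∀ p, Un (u p)) : ∀ᶠ w in 𝓝[≠] (0 : ℂ), ∀ p, u p w ≠ 0 := by
  rw [Filter.eventually_all]
  exact fun p => (hu p).2

theorem mem_Mon_iff (hu : ∀ p, Un (u p)) (γ : Fin n → ℤ) :
    γ ∈ Mon u ↔ ∃ ρ : ℂ → ℂ, MeromorphicAt ρ 0 ∧ ∀ᶠ w in 𝓝[≠] (0 : ℂ), mono u γ w = ρ w := by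
  rw [mem_Mon]
  constructor
  · rintro ⟨-, ρ, hρ, h⟩
    refine ⟨ρ, hρ, ?_⟩
    filter_upwards [h, ev_all hu] with w h1 h2
    exact h1 fun j _ => h2 j
  · rintro ⟨ρ, hρ, h⟩
    refine ⟨fun j hj => absurd (hu j).nz hj, ρ, hρ, ?_⟩
    filter_upwards [h] with w h1 _
    exact h1

end mono

theorem prod_zpow_sum {ι : Type} (s : Finset ι) {a : ℂ} (ha : a ≠ 0) (c : ι → ℤ) :
    ∏ i ∈ s, a ^ c i = a ^ ∑ i ∈ s, c i := by
  classical
  induction s using Finset.induction_on with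
  | empty => simp
  | insert i s hi ih => rw [Finset.prod_insert hi, Finset.sum_insert hi, ih, zpow_add₀ ha]

/-- A number at which finitely many nonzero integral polynomials do not vanish. -/
theorem exists_num {ι : Type} (T : Finset ι) {s : ℕ} (x : ι → Fin s → ℤ)
    (hx : ∀ i ∈ T, x i ≠ 0) : ∃ M : ℤ, ∀ i ∈ T, ∑ k, x i k * M ^ (k : ℕ) ≠ 0 := by
  classical
  let P : ι → Polynomial ℤ := fun i => ∑ k, Polynomial.C (x i k) * Polynomial.X ^ (k : ℕ)
  have hP : ∀ i, ∀ k : Fin s, (P i).coeff k = x i k := by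
    intro i k
    simp only [P, Polynomial.finsetSum_coeff, Polynomial.coeff_C_mul, Polynomial.coeff_X_pow]
    rw [Finset.sum_eq_single k]
    · simp
    · intro l _ hl
      rw [if_neg (fun h => hl (Fin.ext h.symm)), mul_zero]
    · intro h
      exact absurd (Finset.mem_univ _) h
  have hP0 : ∀ i ∈ T, P i ≠ 0 := by
    intro i hi h0
    apply hx i hi
    funext k
    rw [← hP i k, h0]
    simp
  have hprod : ∏ i ∈ T, P i ≠ 0 := Finset.prod_ne_zero_iff.mpr hP0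
  obtain ⟨M, hM⟩ : ∃ M : ℤ, (∏ i ∈ T, P i).eval M ≠ 0 := by
    by_contra hcon
    push Not at hcon
    exact hprod (Polynomial.funext fun M => by rw [hcon M, Polynomial.eval_zero])
  refine ⟨M, fun i hi => ?_⟩
  rw [Polynomial.eval_prod, Finset.prod_ne_zero_iff] at hM
  have := hM i hi
  simpa [P, Polynomial.eval_finsetSum] using this

/-- the adapted basis -/
theorem exists_lattice {n : ℕ} (u : Fin n → ℂ → ℂ) (hu : ∀ p, Un (u p))
    (hne : ∃ p q, ¬ MRel (u p) (u q)) :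
    ∃ (s : ℕ) (U : ℂ → ℂ) (V : Fin s → ℂ → ℂ) (b : Fin n → ℤ) (κ : Fin n → Fin s → ℤ)
      (h : Fin n → ℂ → ℂ), Un U ∧ (∀ k, Un (V k)) ∧ (∀ p, MeromorphicAt (h p) 0) ∧
      (∀ p, ∀ᶠ w in 𝓝[≠] (0 : ℂ), u p w = h p w * (U w ^ b p * ∏ k, V k w ^ κ p k)) ∧
      (∀ p q, b p = b q → MRel (u p) (u q)) ∧
      ∀ (a : ℤ) (c : Fin s → ℤ), (∃ ρ : ℂ → ℂ, MeromorphicAt ρ 0 ∧
        ∀ᶠ w in 𝓝[≠] (0 : ℂ), U w ^ a * ∏ k, V k w ^ c k = ρ w) → a = 0 ∧ c = 0 := by
  classical
  set Λ : AddSubgroup (Fin n → ℤ) := Mon u with hΛ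
  let Q := (Fin n → ℤ) ⧸ Λ
  have hsat := Mon_sat u (fun p => (hu p).1)
  have hfin : Module.Finite ℤ Q :=
    Module.Finite.of_surjective (QuotientAddGroup.mk' Λ).toIntLinearMap
      (QuotientAddGroup.mk'_surjective Λ)
  have hmk : ∀ γ : Fin n → ℤ, (QuotientAddGroup.mk γ : Q) = 0 ↔ γ ∈ Λ := fun γ =>
    QuotientAddGroup.eq_zero_iff γ
  have htf : Module.IsTorsionFree ℤ Q := by
    refine Module.IsTorsionFree.of_smul_eq_zero fun r q hq => ?_
    by_cases hr : r = 0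
    · exact Or.inl hr
    right
    obtain ⟨γ, rfl⟩ := QuotientAddGroup.mk_surjective q
    have h1 : (QuotientAddGroup.mk (r • γ) : Q) = 0 := hq
    rw [hmk] at h1
    rw [hmk]
    refine hsat r.natAbs γ (Int.natAbs_pos.mpr hr) ?_
    have h2 : (r.natAbs : ℕ) • γ = (r.natAbs : ℤ) • γ := (natCast_zsmul γ _).symm
    rw [← hΛ, h2]
    rcases Int.natAbs_eq r with h3 | h3
    · rw [← h3]
      exact h1
    · have h4 : ((r.natAbs : ℤ)) = -r := by omega
      rw [h4, neg_smul]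
      exact Λ.neg_mem h1
  have hfree : Module.Free ℤ Q := Module.free_of_finite_type_torsion_free'
  obtain ⟨r, hr⟩ : ∃ r : ℕ, r = Module.finrank ℤ Q := ⟨_, rfl⟩
  let B : Module.Basis (Fin r) ℤ Q := (Module.finBasis ℤ Q).reindex (finCongr hr.symm)
  -- the coordinates
  let x : Fin n → Fin r → ℤ := fun p i => B.repr (QuotientAddGroup.mk (Pi.single p 1)) i
  have hx : ∀ p, (QuotientAddGroup.mk (Pi.single p 1) : Q) = ∑ i, x p i • B i := fun p =>
    (B.sum_repr _).symm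
  have hrel : ∀ p q, x p = x q → MRel (u p) (u q) := by
    intro p q hpq
    apply MRel_of_Mon (fun p => (hu p).1) p q (hu p).nz (hu q).nz
    rw [← hΛ, ← hmk]
    have h1 : (QuotientAddGroup.mk (Pi.single p 1 - Pi.single q 1 : Fin n → ℤ) : Q) =
        QuotientAddGroup.mk (Pi.single p 1) - QuotientAddGroup.mk (Pi.single q 1) := rfl
    rw [h1, hx p, hx q, hpq, sub_self]
  cases r with
  | zero =>
    exfalso
    obtain ⟨p, q, hpq⟩ := hne
    exact hpq (hrel p q (funext fun i => i.elim0))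
  | succ s =>
  choose γ hγ using fun i => QuotientAddGroup.mk_surjective (B i)
  obtain ⟨M, hM⟩ := exists_num ((Finset.univ : Finset (Fin n × Fin n)).filter
    fun p => x p.1 ≠ x p.2) (fun p => x p.1 - x p.2) (fun p hp =>
      sub_ne_zero.mpr (Finset.mem_filter.mp hp).2)
  let E : Fin (s + 1) → ℂ → ℂ := fun i => mono u (γ i)
  have hE : ∀ i, Un (E i) := fun i => Un.prod Finset.univ fun p _ => (hu p).zpow _
  let U : ℂ → ℂ := E 0
  let V : Fin s → ℂ → ℂ := fun k w => E k.succ w * E 0 w ^ (-M ^ ((k : ℕ) + 1))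
  let b : Fin n → ℤ := fun p => ∑ i, x p i * M ^ (i : ℕ)
  have hEev : ∀ᶠ w in 𝓝[≠] (0 : ℂ), ∀ i, E i w ≠ 0 := by
    rw [Filter.eventually_all]
    exact fun i => (hE i).2
  -- the monomials in `U` and `V`
  have hUV : ∀ (a : ℤ) (c : Fin s → ℤ) (w : ℂ), E 0 w ≠ 0 → U w ^ a * ∏ k, V k w ^ c k =
      E 0 w ^ (a - ∑ k, c k * M ^ ((k : ℕ) + 1)) * ∏ k : Fin s, E k.succ w ^ c k := by
    intro a c w hw
    simp only [U, V, mul_zpow, Finset.prod_mul_distrib]
    rw [zpow_sub₀ hw]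
    have h1 : ∏ k : Fin s, (E 0 w ^ (-M ^ ((k : ℕ) + 1))) ^ c k =
        (E 0 w ^ (∑ k : Fin s, c k * M ^ ((k : ℕ) + 1)))⁻¹ := by
      rw [← zpow_neg, ← Finset.sum_neg_distrib]
      rw [← prod_zpow_sum _ hw]
      refine Finset.prod_congr rfl fun k _ => ?_
      rw [← zpow_mul]
      congr 1
      ring
    rw [h1]
    ring
  have hrep : ∀ p, ∃ h : ℂ → ℂ, MeromorphicAt h 0 ∧
      ∀ᶠ w in 𝓝[≠] (0 : ℂ), u p w = h w * (U w ^ b p * ∏ k : Fin s, V k w ^ x p k.succ) := by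
    intro p
    have h1 : (Pi.single p 1 - ∑ i, x p i • γ i : Fin n → ℤ) ∈ Λ := by
      rw [← hmk]
      have h2 : (QuotientAddGroup.mk (Pi.single p 1 - ∑ i, x p i • γ i : Fin n → ℤ) : Q) =
          QuotientAddGroup.mk (Pi.single p 1) -
            (QuotientAddGroup.mk (∑ i, x p i • γ i : Fin n → ℤ) : Q) := rfl
      have h3 : (QuotientAddGroup.mk (∑ i, x p i • γ i : Fin n → ℤ) : Q) =
          ∑ i, x p i • B i := by
        have h4 := map_sum (QuotientAddGroup.mk' Λ) (fun i => x p i • γ i) Finset.univ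
        refine Eq.trans h4 (Finset.sum_congr rfl fun i _ => ?_)
        rw [map_zsmul, ← hγ i]
        rfl
      rw [h2, h3, hx p, sub_self]
    obtain ⟨ρ, hρ, h2⟩ := (mem_Mon_iff hu _).mp h1
    refine ⟨ρ, hρ, ?_⟩
    filter_upwards [h2, ev_all hu, hEev] with w h3 h4 h5
    rw [hUV _ _ _ (h5 0), ← h3, mono_sub h4, mono_single, mono_sum _ h4]
    have h6 : ∏ i, mono u (x p i • γ i) w = E 0 w ^ (b p - ∑ k : Fin s, x p k.succ *
        M ^ ((k : ℕ) + 1)) * ∏ k : Fin s, E k.succ w ^ x p k.succ := by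
      rw [Fin.prod_univ_succ]
      congr 1
      · rw [mono_smul]
        congr 1
        simp only [b]
        rw [Fin.sum_univ_succ]
        simp
      · exact Finset.prod_congr rfl fun k _ => mono_smul _ _ _
    rw [← h6]
    have h7 : ∏ i, mono u (x p i • γ i) w ≠ 0 :=
      Finset.prod_ne_zero_iff.mpr fun i _ => mono_ne h4 _
    field_simp
  choose h hh1 hh2 using hrep
  refine ⟨s, U, V, b, fun p k => x p k.succ, h, hE 0, fun k => (hE _).mul ((hE 0).zpow _), hh1,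
    hh2, ?_, ?_⟩
  · intro p q hpq
    apply hrel
    by_contra hne'
    apply hM (p, q) (Finset.mem_filter.mpr ⟨Finset.mem_univ _, hne'⟩)
    have h1 : ∑ k, (x p - x q) k * M ^ (k : ℕ) = b p - b q := by
      simp only [b, Pi.sub_apply, sub_mul, Finset.sum_sub_distrib]
    rw [h1, hpq, sub_self]
  · rintro a c ⟨ρ, hρ, h1⟩
    let a' : ℤ := a - ∑ k, c k * M ^ ((k : ℕ) + 1)
    have h2 : (a' • γ 0 + ∑ k : Fin s, c k • γ k.succ : Fin n → ℤ) ∈ Λ := by
      rw [hΛ, mem_Mon_iff hu]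
      refine ⟨ρ, hρ, ?_⟩
      filter_upwards [h1, ev_all hu, hEev] with w h3 h4 h5
      rw [← h3, hUV _ _ _ (h5 0), mono_add h4, mono_sum _ h4, mono_smul]
      congr 1
      exact Finset.prod_congr rfl fun k _ => mono_smul _ _ _
    rw [← hmk] at h2
    have h3 : (QuotientAddGroup.mk (a' • γ 0 + ∑ k : Fin s, c k • γ k.succ : Fin n → ℤ) : Q) =
        a' • B 0 + ∑ k : Fin s, c k • B k.succ := by
      have h4 := map_add (QuotientAddGroup.mk' Λ) (a' • γ 0) (∑ k : Fin s, c k • γ k.succ)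
      refine Eq.trans h4 ?_
      rw [map_sum, map_zsmul, ← hγ 0]
      congr 1
      refine Finset.sum_congr rfl fun k _ => ?_
      rw [map_zsmul, ← hγ k.succ]
      rfl
    rw [h3] at h2
    have h4 : ∑ i, (Fin.cons a' c : Fin (s + 1) → ℤ) i • B i = 0 := by
      rw [Fin.sum_univ_succ]
      simpa using h2
    have h5 := Fintype.linearIndependent_iff.mp B.linearIndependent _ h4
    have hc : c = 0 := funext fun k => by simpa using h5 k.succ
    have ha : a' = 0 := by simpa using h5 0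
    refine ⟨?_, hc⟩
    simp only [a', hc, Pi.zero_apply, zero_mul, Finset.sum_const_zero, sub_zero] at ha
    exact ha

end Pool.Agent.W2helper39.SB
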