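import Pool.Agent.W2helper39.SB.Ev
import Pool.Agent.W2helper39.SB.Gcd
import Pool.Agent.W603.BP.Extn

/-!
Curves of the multiplicative group through the points of a curve on a punctured disc whose
homogeneous coordinates are sums of functions without zeros.
-/

set_option autoImplicit false

namespace Pool.Agent.W2helper39.SB

open Filter Topology Pool.Agent.W603.BP

/-- germs of families of polynomials -/
abbrev Gp : Type := Filter.Germ (𝓝[≠] (0 : ℂ)) (Polynomial ℂ)

/-- the germ of a family -/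
noncomputable def gp : (ℂ → Polynomial ℂ) →+* Gp := Filter.Germ.coeRingHom _

theorem gp_eq {f g : ℂ → Polynomial ℂ} : gp f = gp g ↔ ∀ᶠ w in 𝓝[≠] (0 : ℂ), f w = g w :=
  Germ.coe_eq

theorem gp_surj (x : Gp) : ∃ f, gp f = x := by
  induction x using Filter.Germ.inductionOn with
  | h f => exact ⟨f, rfl⟩

/-- constant polynomials -/
noncomputable def mapC : Gm →+* Gp where
  toFun := Filter.Germ.map Polynomial.C
  map_one' := by
    change Filter.Germ.map Polynomial.C (gm 1) = gp 1
    exact gp_eq.mpr (Eventually.of_forall fun w => map_one _)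
  map_zero' := by
    change Filter.Germ.map Polynomial.C (gm 0) = gp 0
    exact gp_eq.mpr (Eventually.of_forall fun w => map_zero _)
  map_mul' := by
    intro x y
    obtain ⟨f, rfl⟩ := gm_surj x
    obtain ⟨g, rfl⟩ := gm_surj y
    change gp (fun w => Polynomial.C (f w * g w)) = gp fun w => Polynomial.C (f w) * Polynomial.C (g w)
    exact gp_eq.mpr (Eventually.of_forall fun w => map_mul _ _ _)
  map_add' := by
    intro x y
    obtain ⟨f, rfl⟩ := gm_surj x
    obtain ⟨g, rfl⟩ := gm_surj y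
    change gp (fun w => Polynomial.C (f w + g w)) = gp fun w => Polynomial.C (f w) + Polynomial.C (g w)
    exact gp_eq.mpr (Eventually.of_forall fun w => map_add _ _ _)

theorem mapC_gm (f : ℂ → ℂ) : mapC (gm f) = gp fun w => Polynomial.C (f w) := rfl

/-- evaluation at a number -/
noncomputable def evT (τ : ℂ) : Gp →+* Gm where
  toFun := Filter.Germ.map (Polynomial.eval τ)
  map_one' := by
    change Filter.Germ.map (Polynomial.eval τ) (gp 1) = gm 1
    exact gm_eq.mpr (Eventually.of_forall fun w => Polynomial.eval_one)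
  map_zero' := by
    change Filter.Germ.map (Polynomial.eval τ) (gp 0) = gm 0
    exact gm_eq.mpr (Eventually.of_forall fun w => Polynomial.eval_zero)
  map_mul' := by
    intro x y
    obtain ⟨f, rfl⟩ := gp_surj x
    obtain ⟨g, rfl⟩ := gp_surj y
    change gm (fun w => (f w * g w).eval τ) = gm fun w => (f w).eval τ * (g w).eval τ
    exact gm_eq.mpr (Eventually.of_forall fun w => Polynomial.eval_mul)
  map_add' := by
    intro x y
    obtain ⟨f, rfl⟩ := gp_surj x
    obtain ⟨g, rfl⟩ := gp_surj y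
    change gm (fun w => (f w + g w).eval τ) = gm fun w => (f w).eval τ + (g w).eval τ
    exact gm_eq.mpr (Eventually.of_forall fun w => Polynomial.eval_add)

theorem evT_gp (τ : ℂ) (f : ℂ → Polynomial ℂ) : evT τ (gp f) = gm fun w => (f w).eval τ := rfl

variable {s : ℕ} {U : ℂ → ℂ} {V : Fin s → ℂ → ℂ}

variable (U V) in
/-- the action of the multiplicative group -/
noncomputable def Th : Polynomial (AA s) →+* Gp :=
  Polynomial.eval₂RingHom (MvPolynomial.eval₂Hom (mapC.comp MG.subtype)
    fun k => gp fun w => Polynomial.C (V k w)) (gp fun w => Polynomial.C (U w) * Polynomial.X)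

theorem Th_C (a : AA s) : Th U V (Polynomial.C a) = mapC (EvA V a) := by
  have h : (Th U V).comp Polynomial.C = mapC.comp (EvA V) := by
    apply MvPolynomial.ringHom_ext
    · intro c
      simp [Th, EvA]
    · intro k
      simp only [Th, EvA, RingHom.comp_apply, Polynomial.coe_eval₂RingHom, Polynomial.eval₂_C,
        MvPolynomial.coe_eval₂Hom, MvPolynomial.eval₂_X, mapC_gm]
  exact congrArg (fun φ : AA s →+* Gp => φ a) h

theorem Th_X : Th U V Polynomial.X = gp fun w => Polynomial.C (U w) * Polynomial.X := by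
  simp [Th]

theorem evT_mapC (τ : ℂ) (x : Gm) : evT τ (mapC x) = x := by
  obtain ⟨f, rfl⟩ := gm_surj x
  rw [mapC_gm, evT_gp]
  exact gm_eq.mpr (Eventually.of_forall fun w => Polynomial.eval_C)

theorem Th_ev (p : Polynomial (AA s)) : evT 1 (Th U V p) = Ev U V p := by
  have h : (evT 1).comp (Th U V) = Ev U V := by
    apply Polynomial.ringHom_ext
    · intro a
      rw [RingHom.comp_apply, Th_C, evT_mapC]
      simp [Ev]
    · rw [RingHom.comp_apply, Th_X, evT_gp]
      simp only [Ev, Polynomial.coe_eval₂RingHom, Polynomial.eval₂_X]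
      exact gm_eq.mpr (Eventually.of_forall fun w => by simp)
  exact congrArg (fun φ : Polynomial (AA s) →+* Gm => φ p) h

/-- constants as meromorphic germs -/
noncomputable def cM : ℂ →+* MG :=
  (gm.comp (algebraMap ℂ (ℂ → ℂ))).codRestrict MG fun c =>
    ⟨fun _ => c, MeromorphicAt.const c 0, rfl⟩

/-- constants as polynomials -/
noncomputable def cst : ℂ →+* Polynomial (AA s) := Polynomial.C.comp (MvPolynomial.C.comp cM)

theorem Th_cst : (Th U V).comp cst = gp.comp (algebraMap ℂ (ℂ → Polynomial ℂ)) := by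
  ext c
  rw [RingHom.comp_apply]
  change Th U V (Polynomial.C (MvPolynomial.C (cM c))) = _
  rw [Th_C]
  unfold EvA
  rw [MvPolynomial.coe_eval₂Hom, MvPolynomial.eval₂_C]
  rfl

theorem Ev_cst : (Ev U V).comp cst = gm.comp (algebraMap ℂ (ℂ → ℂ)) := by
  ext c
  rw [RingHom.comp_apply]
  change Ev U V (Polynomial.C (MvPolynomial.C (cM c))) = _
  unfold Ev EvA
  rw [Polynomial.coe_eval₂RingHom, Polynomial.eval₂_C, MvPolynomial.coe_eval₂Hom,
    MvPolynomial.eval₂_C]
  rfl

theorem hom_aeval {S R : Type} [CommRing S] [Algebra ℂ S] [CommRing R] (γ : (ℂ → S) →+* R)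
    {n : ℕ} (f : Fin n → ℂ → S) (G : MvPolynomial (Fin n) ℂ) :
    γ (fun w => MvPolynomial.aeval (fun c => f c w) G) =
      MvPolynomial.eval₂ (γ.comp (algebraMap ℂ (ℂ → S))) (fun c => γ (f c)) G := by
  have h1 : (fun w => MvPolynomial.aeval (fun c => f c w) G) = MvPolynomial.aeval f G := by
    funext w
    have h2 := MvPolynomial.comp_aeval_apply (f := f) (Pi.evalAlgHom ℂ (fun _ : ℂ => S) w) G
    simp only [Pi.evalAlgHom_apply] at h2
    rw [h2]
  rw [h1, MvPolynomial.aeval_def, MvPolynomial.eval₂_comp_left]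
  rfl

/-- forms evaluated at polynomials -/
theorem Th_form {n : ℕ} {F : Fin n → Polynomial (AA s)} {W : Fin n → ℂ → Polynomial ℂ}
    (hF : ∀ c, Th U V (F c) = gp (W c)) (G : MvPolynomial (Fin n) ℂ) :
    Th U V (MvPolynomial.eval₂ cst F G) = gp fun w => MvPolynomial.aeval (fun c => W c w) G := by
  rw [hom_aeval, MvPolynomial.eval₂_comp_left, Th_cst]
  congr 1
  funext c
  exact hF c

theorem Ev_form {n : ℕ} {F : Fin n → Polynomial (AA s)} {g : Fin n → ℂ → ℂ}
    (hF : ∀ c, Ev U V (F c) = gm (g c)) (G : MvPolynomial (Fin n) ℂ) :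
    Ev U V (MvPolynomial.eval₂ cst F G) = gm fun w => MvPolynomial.aeval (fun c => g c w) G := by
  rw [hom_aeval, MvPolynomial.eval₂_comp_left, Ev_cst]
  congr 1
  funext c
  exact hF c

theorem Dat.exists_fun (p : Polynomial (AA s)) (h : Dat U V) :
    ∃ g : ℂ → ℂ, Pun g ∧ Ev U V p = gm g :=
  ⟨_, Pun.sum _ fun a _ => (Pun.mero (rep_mero (cf p a))).mul (h.mn_un a).1, Ev_eq p⟩

/-- **The curves avoid everything that is avoided by the given curve.** -/
theorem Dat.avoid (h : Dat U V) {n : ℕ} {F : Fin n → Polynomial (AA s)}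
    {W : Fin n → ℂ → Polynomial ℂ} (hF : ∀ c, Th U V (F c) = gp (W c)) {k : ℕ}
    (E : Fin k → MvPolynomial (Fin n) ℂ)
    (hE : ∀ᶠ w in 𝓝[≠] (0 : ℂ), ∃ j, MvPolynomial.aeval (fun c => (W c w).eval 1) (E j) ≠ 0) :
    ∃ δ : ℂ → ℂ, Pun δ ∧ Nz δ ∧ ∀ᶠ w in 𝓝[≠] (0 : ℂ), δ w ≠ 0 → ∀ τ : ℂ, τ ≠ 0 →
      ∃ j, (MvPolynomial.aeval (fun c => W c w) (E j)).eval τ ≠ 0 := by
  classical
  have hg : ∀ c, Ev U V (F c) = gm fun w => (W c w).eval 1 := by
    intro c
    rw [← Th_ev, hF, evT_gp]
  let p : Fin k → Polynomial (AA s) := fun j => MvPolynomial.eval₂ cst F (E j)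
  have hp1 : ∀ j, Ev U V (p j) =
      gm fun w => MvPolynomial.aeval (fun c => (W c w).eval 1) (E j) := fun j => Ev_form hg (E j)
  have hp2 : ∀ j, Th U V (p j) = gp fun w => MvPolynomial.aeval (fun c => W c w) (E j) :=
    fun j => Th_form hF (E j)
  have hp : ∃ j, p j ≠ 0 := by
    by_contra hcon
    push Not at hcon
    have h1 : ∀ᶠ w in 𝓝[≠] (0 : ℂ), ∀ j,
        MvPolynomial.aeval (fun c => (W c w).eval 1) (E j) = 0 := by
      rw [Filter.eventually_all]
      intro j
      have h2 := hp1 j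
      rw [hcon j, map_zero] at h2
      exact gm_eq_zero.mp h2.symm
    obtain ⟨w, h2, j, h3⟩ := (h1.and hE).exists
    exact h3 (h2 j)
  rcases gcd_alt p hp with ⟨q, hq, hdeg, hq0⟩ | ⟨H, D, l, hD, hsum⟩
  · exfalso
    obtain ⟨g, hg1, hg2⟩ := h.exists_fun q
    choose r hr using hq
    choose ρ hρ1 hρ2 using fun j => h.exists_fun (r j)
    have h1 : ∀ᶠ w in 𝓝[≠] (0 : ℂ), ∀ j,
        MvPolynomial.aeval (fun c => (W c w).eval 1) (E j) = g w * ρ j w := by
      rw [Filter.eventually_all]
      intro j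
      rw [← gm_eq, ← hp1 j, hr j, map_mul, hg2, hρ2, gm_mul]
    have h2 : Un g := by
      refine ⟨hg1, ?_⟩
      filter_upwards [h1, hE] with w h3 h4 h5
      obtain ⟨j, hj⟩ := h4
      exact hj (by rw [h3 j, h5, zero_mul])
    have := h.Ev_unit h2 hg2 hq0
    omega
  · obtain ⟨δ, hδ1, hδ2⟩ := h.exists_fun (Polynomial.C D)
    have hEvC : EvA V D = gm δ := by
      rw [← hδ2]
      simp [Ev]
    have hδn : Nz δ := by
      intro h0
      have h1 : Ev U V (Polynomial.C D) = 0 := by
        rw [hδ2]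
        exact gm_eq_zero.mpr h0
      have h2 := h.Ev_inj h1
      exact hD (Polynomial.C_eq_zero.mp h2)
    choose Hf hHf using fun j => gp_surj (Th U V (H j))
    have h1 : ∀ᶠ w in 𝓝[≠] (0 : ℂ), ∑ j, Hf j w * MvPolynomial.aeval (fun c => W c w) (E j) =
        Polynomial.C (δ w) * (Polynomial.C (U w) * Polynomial.X) ^ l := by
      rw [← gp_eq]
      have h2 := congrArg (Th U V) hsum
      rw [map_sum, map_mul, map_pow, Th_C, Th_X, hEvC, mapC_gm] at h2
      have h3 : (fun w => ∑ j, Hf j w * MvPolynomial.aeval (fun c => W c w) (E j)) =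
          ∑ j, (Hf j * fun w => MvPolynomial.aeval (fun c => W c w) (E j)) := by
        funext w
        rw [Finset.sum_apply]
        rfl
      have h4 : (fun w => Polynomial.C (δ w) * (Polynomial.C (U w) * Polynomial.X) ^ l) =
          (fun w => Polynomial.C (δ w)) * (fun w => Polynomial.C (U w) * Polynomial.X) ^ l := by
        funext w
        rfl
      rw [h3, h4, map_sum, map_mul, map_pow, ← h2]
      refine Finset.sum_congr rfl fun j _ => ?_
      rw [map_mul, map_mul, hHf, hp2]
    refine ⟨δ, hδ1, hδn, ?_⟩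
    filter_upwards [h1, h.hU.2] with w h2 h3 h4 τ hτ
    by_contra hcon
    push Not at hcon
    have h5 := congrArg (Polynomial.eval τ) h2
    rw [Polynomial.eval_finsetSum, Finset.sum_eq_zero (fun j _ => by
      rw [Polynomial.eval_mul, hcon j, mul_zero])] at h5
    simp only [Polynomial.eval_mul, Polynomial.eval_C, Polynomial.eval_pow,
      Polynomial.eval_X] at h5
    exact mul_ne_zero h4 (pow_ne_zero _ (mul_ne_zero h3 hτ)) h5.symm

/-- the relations are preserved -/
theorem Dat.rel (h : Dat U V) {n : ℕ} {F : Fin n → Polynomial (AA s)}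
    {W : Fin n → ℂ → Polynomial ℂ} (hF : ∀ c, Th U V (F c) = gp (W c))
    (G : MvPolynomial (Fin n) ℂ)
    (hG : ∀ᶠ w in 𝓝[≠] (0 : ℂ), MvPolynomial.aeval (fun c => (W c w).eval 1) G = 0) :
    ∀ᶠ w in 𝓝[≠] (0 : ℂ), MvPolynomial.aeval (fun c => W c w) G = 0 := by
  have hg : ∀ c, Ev U V (F c) = gm fun w => (W c w).eval 1 := by
    intro c
    rw [← Th_ev, hF, evT_gp]
  have h1 : Ev U V (MvPolynomial.eval₂ cst F G) = 0 := by
    rw [Ev_form hg]
    exact gm_eq_zero.mpr hG
  have h2 := h.Ev_inj h1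
  have h3 := Th_form hF G
  rw [h2, map_zero, ← map_zero gp] at h3
  filter_upwards [gp_eq.mp h3] with w hw
  exact hw.symm

end Pool.Agent.W2helper39.SB
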